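import Pool.Agent.CritDiam.Basic

/-! # The construction of an `(n,k)`-graph of diameter 3 from a family of blocks

This generalises `Pool/Agent/CritDiam/Construct.lean`, `Lower.lean`, `Upper.lean`: the `(k+1)`-subsets of a set with
`2 k + 3` elements are replaced by any family of `ρ`-subsets of a set with `2 ρ + 1` elements which covers all
`k`-subsets. -/

set_option linter.unusedSectionVars false

namespace Pool.Agent.CritLog

open SimpleGraph Pool.Agent.CritDiam

/-- The blocks. -/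
abbrev Blk {r : ℕ} (𝓑 : Finset (Finset (Fin r))) : Type := {I : Finset (Fin r) // I ∈ 𝓑}

/-- The vertices of the construction. -/
inductive Vtx {r : ℕ} (𝓑 : Finset (Finset (Fin r))) (t a b : ℕ) : Type
  | A (i : Fin a) : Vtx 𝓑 t a b
  | B (j : Fin b) : Vtx 𝓑 t a b
  | Z (I : Blk 𝓑) (e : Bool) : Vtx 𝓑 t a b
  | P (i : Fin r) (s : Fin t) : Vtx 𝓑 t a b
  | Q (i : Fin r) (s : Fin t) : Vtx 𝓑 t a b

variable {r t a b : ℕ} {𝓑 : Finset (Finset (Fin r))}

/-- The (non-symmetrised) adjacency relation. -/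
def rel : Vtx 𝓑 t a b → Vtx 𝓑 t a b → Prop
  | .A _, .A _ => True
  | .A _, .P _ _ => True
  | .P _ _, .P _ _ => True
  | .B _, .B _ => True
  | .B _, .Q _ _ => True
  | .Q _ _, .Q _ _ => True
  | .Z _ _, .Z _ _ => True
  | .P i s, .Q i' s' => i = i' ∧ s = s'
  | .Z _ e, .A i => (i : ℕ) ≠ 0 ∨ e = false
  | .Z _ e, .B j => (j : ℕ) ≠ 0 ∨ e = true
  | .Z I _, .P i _ => i ∈ I.1
  | .Z I _, .Q i _ => i ∈ I.1
  | _, _ => False

/-- The graph of the construction. -/
def gr {r : ℕ} (𝓑 : Finset (Finset (Fin r))) (t a b : ℕ) : SimpleGraph (Vtx 𝓑 t a b) := SimpleGraph.fromRel rel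

/-- Encoding of the vertices in a sum type. -/
def enc : Vtx 𝓑 t a b → (Fin a ⊕ Fin b) ⊕ ((Blk 𝓑 × Bool) ⊕
    ((Fin r × Fin t) ⊕ (Fin r × Fin t)))
  | .A i => Sum.inl (Sum.inl i)
  | .B j => Sum.inl (Sum.inr j)
  | .Z I e => Sum.inr (Sum.inl (I, e))
  | .P i s => Sum.inr (Sum.inr (Sum.inl (i, s)))
  | .Q i s => Sum.inr (Sum.inr (Sum.inr (i, s)))

lemma enc_injective : Function.Injective (enc : Vtx 𝓑 t a b → _) := by
  intro u v h
  cases u <;> cases v <;> simp_all [enc]

instance : Finite (Vtx 𝓑 t a b) := Finite.of_injective enc enc_injective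

/-- `v` lies in the clique `A ∪ P`. -/
def inX : Vtx 𝓑 t a b → Prop
  | .A _ => True
  | .P _ _ => True
  | _ => False

/-- `v` lies in the clique `B ∪ Q`. -/
def inY : Vtx 𝓑 t a b → Prop
  | .B _ => True
  | .Q _ _ => True
  | _ => False

/-- `v` lies in the clique `Z`. -/
def inZ : Vtx 𝓑 t a b → Prop
  | .Z _ _ => True
  | _ => False

lemma cases3 (v : Vtx 𝓑 t a b) : inX v ∨ inY v ∨ inZ v := by
  cases v <;> simp [inX, inY, inZ]

lemma adj_X {u v : Vtx 𝓑 t a b} (hu : inX u) (hv : inX v) (h : u ≠ v) : (gr 𝓑 t a b).Adj u v := by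
  cases u <;> cases v <;> simp_all [inX, gr, fromRel_adj, rel]

lemma adj_Y {u v : Vtx 𝓑 t a b} (hu : inY u) (hv : inY v) (h : u ≠ v) : (gr 𝓑 t a b).Adj u v := by
  cases u <;> cases v <;> simp_all [inY, gr, fromRel_adj, rel]

lemma adj_Z {u v : Vtx 𝓑 t a b} (hu : inZ u) (hv : inZ v) (h : u ≠ v) : (gr 𝓑 t a b).Adj u v := by
  cases u <;> cases v <;> simp_all [inZ, gr, fromRel_adj, rel]

lemma adj_PQ (i : Fin r) (s : Fin t) :
    (gr 𝓑 t a b).Adj (.P i s) (.Q i s) := by
  simp [gr, fromRel_adj, rel]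

lemma adj_ZA (I : Blk 𝓑) (e : Bool) (i : Fin a) :
    (gr 𝓑 t a b).Adj (.Z I e) (.A i) ↔ ((i : ℕ) ≠ 0 ∨ e = false) := by
  simp [gr, fromRel_adj, rel]

lemma adj_ZB (I : Blk 𝓑) (e : Bool) (j : Fin b) :
    (gr 𝓑 t a b).Adj (.Z I e) (.B j) ↔ ((j : ℕ) ≠ 0 ∨ e = true) := by
  simp [gr, fromRel_adj, rel]

lemma adj_ZP (I : Blk 𝓑) (e : Bool) (i : Fin r) (s : Fin t) :
    (gr 𝓑 t a b).Adj (.Z I e) (.P i s) ↔ i ∈ I.1 := by
  simp [gr, fromRel_adj, rel]

lemma adj_ZQ (I : Blk 𝓑) (e : Bool) (i : Fin r) (s : Fin t) :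
    (gr 𝓑 t a b).Adj (.Z I e) (.Q i s) ↔ i ∈ I.1 := by
  simp [gr, fromRel_adj, rel]

/-- A cut isolates one of the three cliques. -/
lemma three_cases {S : Set (Vtx 𝓑 t a b)} (h : Disconnects (gr 𝓑 t a b) S) :
    ((∃ u, u ∉ S ∧ inX u) ∧ ∀ u v, u ∉ S → v ∉ S → inX u → ¬ inX v → ¬ (gr 𝓑 t a b).Adj u v) ∨
    ((∃ u, u ∉ S ∧ inY u) ∧ ∀ u v, u ∉ S → v ∉ S → inY u → ¬ inY v → ¬ (gr 𝓑 t a b).Adj u v) ∨
    ((∃ u, u ∉ S ∧ inZ u) ∧ ∀ u v, u ∉ S → v ∉ S → inZ u → ¬ inZ v → ¬ (gr 𝓑 t a b).Adj u v) := by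
  rw [disconnects_iff] at h
  obtain ⟨F, ⟨u₀, hu₀, hu₀F⟩, ⟨v₀, hv₀, hv₀F⟩, hF⟩ := h
  -- each clique lies on one side
  have hX : (∀ u, u ∉ S → inX u → u ∈ F) ∨ (∀ u, u ∉ S → inX u → u ∉ F) := by
    by_contra hcon
    push Not at hcon
    obtain ⟨⟨u, hu, hux, huF⟩, ⟨v, hv, hvx, hvF⟩⟩ := hcon
    have hne : v ≠ u := fun h1 => huF (h1 ▸ hvF)
    exact huF ((hF v u hv hu (adj_X hvx hux hne)).1 hvF)
  have hY : (∀ u, u ∉ S → inY u → u ∈ F) ∨ (∀ u, u ∉ S → inY u → u ∉ F) := by
    by_contra hcon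
    push Not at hcon
    obtain ⟨⟨u, hu, hux, huF⟩, ⟨v, hv, hvx, hvF⟩⟩ := hcon
    have hne : v ≠ u := fun h1 => huF (h1 ▸ hvF)
    exact huF ((hF v u hv hu (adj_Y hvx hux hne)).1 hvF)
  have hZ : (∀ u, u ∉ S → inZ u → u ∈ F) ∨ (∀ u, u ∉ S → inZ u → u ∉ F) := by
    by_contra hcon
    push Not at hcon
    obtain ⟨⟨u, hu, hux, huF⟩, ⟨v, hv, hvx, hvF⟩⟩ := hcon
    have hne : v ≠ u := fun h1 => huF (h1 ▸ hvF)
    exact huF ((hF v u hv hu (adj_Z hvx hux hne)).1 hvF)
  have hsep : ∀ u v, u ∉ S → v ∉ S → ¬ (u ∈ F ↔ v ∈ F) → ¬ (gr 𝓑 t a b).Adj u v :=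
    fun u v hu hv hne hadj => hne (hF u v hu hv hadj)
  -- which clique contains a vertex
  by_cases neX : ∃ u, u ∉ S ∧ inX u
  · by_cases neY : ∃ u, u ∉ S ∧ inY u
    · by_cases neZ : ∃ u, u ∉ S ∧ inZ u
      · -- all three nonempty
        rcases hX with hX | hX <;> rcases hY with hY | hY <;> rcases hZ with hZ | hZ
        · exfalso
          rcases cases3 v₀ with h1 | h1 | h1
          · exact hv₀F (hX _ hv₀ h1)
          · exact hv₀F (hY _ hv₀ h1)
          · exact hv₀F (hZ _ hv₀ h1)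
        · right; right
          refine ⟨neZ, fun u v hu hv huz hvz => hsep u v hu hv ?_⟩
          have h1 := hZ u hu huz
          have h2 : v ∈ F := by
            rcases cases3 v with h1 | h1 | h1
            · exact hX _ hv h1
            · exact hY _ hv h1
            · exact absurd h1 hvz
          tauto
        · right; left
          refine ⟨neY, fun u v hu hv huz hvz => hsep u v hu hv ?_⟩
          have h1 := hY u hu huz
          have h2 : v ∈ F := by
            rcases cases3 v with h1 | h1 | h1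
            · exact hX _ hv h1
            · exact absurd h1 hvz
            · exact hZ _ hv h1
          tauto
        · left
          refine ⟨neX, fun u v hu hv huz hvz => hsep u v hu hv ?_⟩
          have h1 := hX u hu huz
          have h2 : v ∉ F := by
            rcases cases3 v with h1 | h1 | h1
            · exact absurd h1 hvz
            · exact hY _ hv h1
            · exact hZ _ hv h1
          tauto
        · left
          refine ⟨neX, fun u v hu hv huz hvz => hsep u v hu hv ?_⟩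
          have h1 := hX u hu huz
          have h2 : v ∈ F := by
            rcases cases3 v with h1 | h1 | h1
            · exact absurd h1 hvz
            · exact hY _ hv h1
            · exact hZ _ hv h1
          tauto
        · right; left
          refine ⟨neY, fun u v hu hv huz hvz => hsep u v hu hv ?_⟩
          have h1 := hY u hu huz
          have h2 : v ∉ F := by
            rcases cases3 v with h1 | h1 | h1
            · exact hX _ hv h1
            · exact absurd h1 hvz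
            · exact hZ _ hv h1
          tauto
        · right; right
          refine ⟨neZ, fun u v hu hv huz hvz => hsep u v hu hv ?_⟩
          have h1 := hZ u hu huz
          have h2 : v ∉ F := by
            rcases cases3 v with h1 | h1 | h1
            · exact hX _ hv h1
            · exact hY _ hv h1
            · exact absurd h1 hvz
          tauto
        · exfalso
          rcases cases3 u₀ with h1 | h1 | h1
          · exact (hX _ hu₀ h1) hu₀F
          · exact (hY _ hu₀ h1) hu₀F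
          · exact (hZ _ hu₀ h1) hu₀F
      · -- Z empty: X against Y
        left
        refine ⟨neX, fun u v hu hv huz hvz => ?_⟩
        have hvY : inY v := by
          rcases cases3 v with h1 | h1 | h1
          · exact absurd h1 hvz
          · exact h1
          · exact absurd ⟨v, hv, h1⟩ neZ
        apply hsep u v hu hv
        rcases hX with hX | hX <;> rcases hY with hY | hY
        · exfalso
          rcases cases3 v₀ with h1 | h1 | h1
          · exact hv₀F (hX _ hv₀ h1)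
          · exact hv₀F (hY _ hv₀ h1)
          · exact neZ ⟨_, hv₀, h1⟩
        · have := hX u hu huz
          have := hY v hv hvY
          tauto
        · have := hX u hu huz
          have := hY v hv hvY
          tauto
        · exfalso
          rcases cases3 u₀ with h1 | h1 | h1
          · exact (hX _ hu₀ h1) hu₀F
          · exact (hY _ hu₀ h1) hu₀F
          · exact neZ ⟨_, hu₀, h1⟩
    · -- Y empty: X against Z
      left
      refine ⟨neX, fun u v hu hv huz hvz => ?_⟩
      have hvZ : inZ v := by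
        rcases cases3 v with h1 | h1 | h1
        · exact absurd h1 hvz
        · exact absurd ⟨v, hv, h1⟩ neY
        · exact h1
      apply hsep u v hu hv
      rcases hX with hX | hX <;> rcases hZ with hZ | hZ
      · exfalso
        rcases cases3 v₀ with h1 | h1 | h1
        · exact hv₀F (hX _ hv₀ h1)
        · exact neY ⟨_, hv₀, h1⟩
        · exact hv₀F (hZ _ hv₀ h1)
      · have := hX u hu huz
        have := hZ v hv hvZ
        tauto
      · have := hX u hu huz
        have := hZ v hv hvZ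
        tauto
      · exfalso
        rcases cases3 u₀ with h1 | h1 | h1
        · exact (hX _ hu₀ h1) hu₀F
        · exact neY ⟨_, hu₀, h1⟩
        · exact (hZ _ hu₀ h1) hu₀F
  · -- X empty: Y against Z
    right; left
    have neY : ∃ u, u ∉ S ∧ inY u := by
      by_contra neY
      rcases hZ with hZ | hZ
      · rcases cases3 v₀ with h1 | h1 | h1
        · exact neX ⟨_, hv₀, h1⟩
        · exact neY ⟨_, hv₀, h1⟩
        · exact hv₀F (hZ _ hv₀ h1)
      · rcases cases3 u₀ with h1 | h1 | h1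
        · exact neX ⟨_, hu₀, h1⟩
        · exact neY ⟨_, hu₀, h1⟩
        · exact (hZ _ hu₀ h1) hu₀F
    refine ⟨neY, fun u v hu hv huz hvz => ?_⟩
    have hvZ : inZ v := by
      rcases cases3 v with h1 | h1 | h1
      · exact absurd ⟨v, hv, h1⟩ neX
      · exact absurd h1 hvz
      · exact h1
    apply hsep u v hu hv
    rcases hY with hY | hY <;> rcases hZ with hZ | hZ
    · exfalso
      rcases cases3 v₀ with h1 | h1 | h1
      · exact neX ⟨_, hv₀, h1⟩
      · exact hv₀F (hY _ hv₀ h1)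
      · exact hv₀F (hZ _ hv₀ h1)
    · have := hY u hu huz
      have := hZ v hv hvZ
      tauto
    · have := hY u hu huz
      have := hZ v hv hvZ
      tauto
    · exfalso
      rcases cases3 u₀ with h1 | h1 | h1
      · exact neX ⟨_, hu₀, h1⟩
      · exact (hY _ hu₀ h1) hu₀F
      · exact (hZ _ hu₀ h1) hu₀F

/-- number of blocks -/
noncomputable def nb {r : ℕ} (𝓑 : Finset (Finset (Fin r))) : ℕ := Nat.card (Blk 𝓑)

lemma card_parts (r t : ℕ) : Nat.card (Fin r × Fin t) = r * t := by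
  simp

lemma card_ne_zero_fin (a : ℕ) (ha : 0 < a) : Nat.card {i : Fin a // (i : ℕ) ≠ 0} = a - 1 := by
  obtain ⟨m, rfl⟩ : ∃ m, a = m + 1 := ⟨a - 1, by omega⟩
  have e : {i : Fin (m + 1) // (i : ℕ) ≠ 0} ≃ Fin m :=
    { toFun := fun i => ⟨i.1.1 - 1, by have := i.1.2; have := i.2; omega⟩
      invFun := fun j => ⟨⟨j.1 + 1, by have := j.2; omega⟩, by simp⟩
      left_inv := by
        rintro ⟨⟨i, hi⟩, hi0⟩
        simp only [Subtype.mk.injEq, Fin.mk.injEq]
        simp only [ne_eq] at hi0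
        omega
      right_inv := by
        rintro ⟨j, hj⟩
        simp }
  rw [Nat.card_congr e]
  simp

/-- Clique `A ∪ P` isolated. -/
lemma lower_X {S : Set (Vtx 𝓑 t a b)} (ha : 0 < a)
    (_hne : ∃ u, u ∉ S ∧ inX u)
    (h : ∀ u v, u ∉ S → v ∉ S → inX u → ¬ inX v → ¬ (gr 𝓑 t a b).Adj u v) :
    r * t + 2 * nb 𝓑 ≤ S.ncard ∨
    r * t + (a - 1) + nb 𝓑 ≤ S.ncard ∨
    r * t + a ≤ S.ncard := by
  classical
  have hPQ : ∀ i s, Vtx.P i s ∉ S → Vtx.Q i s ∈ S := by
    intro i s hP
    by_contra hQ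
    exact h _ _ hP hQ trivial (fun h => h) (adj_PQ i s)
  by_cases h1 : ∃ i : Fin a, (i : ℕ) ≠ 0 ∧ Vtx.A i ∉ S
  · left
    obtain ⟨i₀, hi₀, hi₀S⟩ := h1
    have hZ : ∀ I e, Vtx.Z I e ∈ S := by
      intro I e
      by_contra hZ
      exact h _ _ hi₀S hZ trivial (fun h => h) ((adj_ZA I e i₀).2 (Or.inl hi₀)).symm
    have := card_le_of_inj (D := (Fin r × Fin t) ⊕ (Blk 𝓑 × Bool)) S
      (fun d => match d with
        | Sum.inl (i, s) => if Vtx.P i s ∈ S then Vtx.P i s else Vtx.Q i s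
        | Sum.inr (I, e) => Vtx.Z I e) ?_ ?_
    · rw [Nat.card_sum, card_parts, Nat.card_prod] at this
      simp only [Nat.card_eq_fintype_card, Fintype.card_bool] at this
      simp only [nb, Nat.card_eq_fintype_card]
      omega
    · rintro (⟨i, s⟩ | ⟨I, e⟩) (⟨i', s'⟩ | ⟨I', e'⟩) heq
      · dsimp only at heq
        split_ifs at heq <;> simp_all
      · dsimp only at heq
        split_ifs at heq
      · dsimp only at heq
        split_ifs at heq
      · simpa using heq
    · rintro (⟨i, s⟩ | ⟨I, e⟩)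
      · dsimp only
        split_ifs with hP
        · exact hP
        · exact hPQ i s hP
      · exact hZ I e
  · push Not at h1
    right
    by_cases h2 : ∃ i : Fin a, Vtx.A i ∉ S
    · left
      obtain ⟨i₀, hi₀S⟩ := h2
      have hZ : ∀ I, Vtx.Z I false ∈ S := by
        intro I
        by_contra hZ
        exact h _ _ hi₀S hZ trivial (fun h => h) ((adj_ZA I false i₀).2 (Or.inr rfl)).symm
      have := card_le_of_inj
        (D := (Fin r × Fin t) ⊕ ({i : Fin a // (i : ℕ) ≠ 0} ⊕ Blk 𝓑)) S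
        (fun d => match d with
          | Sum.inl (i, s) => if Vtx.P i s ∈ S then Vtx.P i s else Vtx.Q i s
          | Sum.inr (Sum.inl i) => Vtx.A i.1
          | Sum.inr (Sum.inr I) => Vtx.Z I false) ?_ ?_
      · rw [Nat.card_sum, card_parts, Nat.card_sum, card_ne_zero_fin a ha] at this
        unfold nb
        omega
      · rintro (⟨i, s⟩ | i | I) (⟨i', s'⟩ | i' | I') heq
        · dsimp only at heq
          split_ifs at heq <;> simp_all
        · dsimp only at heq
          split_ifs at heq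
        · dsimp only at heq
          split_ifs at heq
        · dsimp only at heq
          split_ifs at heq
        · simp only [Vtx.A.injEq] at heq
          rw [Subtype.ext heq]
        · simp at heq
        · dsimp only at heq
          split_ifs at heq
        · simp at heq
        · simpa using heq
      · rintro (⟨i, s⟩ | i | I)
        · dsimp only
          split_ifs with hP
          · exact hP
          · exact hPQ i s hP
        · exact h1 i.1 i.2
        · exact hZ I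
    · right
      push Not at h2
      have := card_le_of_inj
        (D := (Fin r × Fin t) ⊕ Fin a) S
        (fun d => match d with
          | Sum.inl (i, s) => if Vtx.P i s ∈ S then Vtx.P i s else Vtx.Q i s
          | Sum.inr i => Vtx.A i) ?_ ?_
      · rw [Nat.card_sum, card_parts, Nat.card_fin] at this
        omega
      · rintro (⟨i, s⟩ | i) (⟨i', s'⟩ | i') heq
        · dsimp only at heq
          split_ifs at heq <;> simp_all
        · dsimp only at heq
          split_ifs at heq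
        · dsimp only at heq
          split_ifs at heq
        · simpa using heq
      · rintro (⟨i, s⟩ | i)
        · dsimp only
          split_ifs with hP
          · exact hP
          · exact hPQ i s hP
        · exact h2 i

/-- Clique `B ∪ Q` isolated. -/
lemma lower_Y {S : Set (Vtx 𝓑 t a b)} (hb : 0 < b)
    (_hne : ∃ u, u ∉ S ∧ inY u)
    (h : ∀ u v, u ∉ S → v ∉ S → inY u → ¬ inY v → ¬ (gr 𝓑 t a b).Adj u v) :
    r * t + 2 * nb 𝓑 ≤ S.ncard ∨
    r * t + (b - 1) + nb 𝓑 ≤ S.ncard ∨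
    r * t + b ≤ S.ncard := by
  classical
  have hPQ : ∀ i s, Vtx.Q i s ∉ S → Vtx.P i s ∈ S := by
    intro i s hP
    by_contra hQ
    exact h _ _ hP hQ trivial (fun h => h) (adj_PQ i s).symm
  by_cases h1 : ∃ i : Fin b, (i : ℕ) ≠ 0 ∧ Vtx.B i ∉ S
  · left
    obtain ⟨i₀, hi₀, hi₀S⟩ := h1
    have hZ : ∀ I e, Vtx.Z I e ∈ S := by
      intro I e
      by_contra hZ
      exact h _ _ hi₀S hZ trivial (fun h => h) ((adj_ZB I e i₀).2 (Or.inl hi₀)).symm
    have := card_le_of_inj (D := (Fin r × Fin t) ⊕ (Blk 𝓑 × Bool)) S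
      (fun d => match d with
        | Sum.inl (i, s) => if Vtx.Q i s ∈ S then Vtx.Q i s else Vtx.P i s
        | Sum.inr (I, e) => Vtx.Z I e) ?_ ?_
    · rw [Nat.card_sum, card_parts, Nat.card_prod] at this
      simp only [Nat.card_eq_fintype_card, Fintype.card_bool] at this
      simp only [nb, Nat.card_eq_fintype_card]
      omega
    · rintro (⟨i, s⟩ | ⟨I, e⟩) (⟨i', s'⟩ | ⟨I', e'⟩) heq
      · dsimp only at heq
        split_ifs at heq <;> simp_all
      · dsimp only at heq
        split_ifs at heq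
      · dsimp only at heq
        split_ifs at heq
      · simpa using heq
    · rintro (⟨i, s⟩ | ⟨I, e⟩)
      · dsimp only
        split_ifs with hP
        · exact hP
        · exact hPQ i s hP
      · exact hZ I e
  · push Not at h1
    right
    by_cases h2 : ∃ i : Fin b, Vtx.B i ∉ S
    · left
      obtain ⟨i₀, hi₀S⟩ := h2
      have hZ : ∀ I, Vtx.Z I true ∈ S := by
        intro I
        by_contra hZ
        exact h _ _ hi₀S hZ trivial (fun h => h) ((adj_ZB I true i₀).2 (Or.inr rfl)).symm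
      have := card_le_of_inj
        (D := (Fin r × Fin t) ⊕ ({i : Fin b // (i : ℕ) ≠ 0} ⊕ Blk 𝓑)) S
        (fun d => match d with
          | Sum.inl (i, s) => if Vtx.Q i s ∈ S then Vtx.Q i s else Vtx.P i s
          | Sum.inr (Sum.inl i) => Vtx.B i.1
          | Sum.inr (Sum.inr I) => Vtx.Z I true) ?_ ?_
      · rw [Nat.card_sum, card_parts, Nat.card_sum, card_ne_zero_fin b hb] at this
        unfold nb
        omega
      · rintro (⟨i, s⟩ | i | I) (⟨i', s'⟩ | i' | I') heq
        · dsimp only at heq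
          split_ifs at heq <;> simp_all
        · dsimp only at heq
          split_ifs at heq
        · dsimp only at heq
          split_ifs at heq
        · dsimp only at heq
          split_ifs at heq
        · simp only [Vtx.B.injEq] at heq
          rw [Subtype.ext heq]
        · simp at heq
        · dsimp only at heq
          split_ifs at heq
        · simp at heq
        · simpa using heq
      · rintro (⟨i, s⟩ | i | I)
        · dsimp only
          split_ifs with hP
          · exact hP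
          · exact hPQ i s hP
        · exact h1 i.1 i.2
        · exact hZ I
    · right
      push Not at h2
      have := card_le_of_inj
        (D := (Fin r × Fin t) ⊕ Fin b) S
        (fun d => match d with
          | Sum.inl (i, s) => if Vtx.Q i s ∈ S then Vtx.Q i s else Vtx.P i s
          | Sum.inr i => Vtx.B i) ?_ ?_
      · rw [Nat.card_sum, card_parts, Nat.card_fin] at this
        omega
      · rintro (⟨i, s⟩ | i) (⟨i', s'⟩ | i') heq
        · dsimp only at heq
          split_ifs at heq <;> simp_all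
        · dsimp only at heq
          split_ifs at heq
        · dsimp only at heq
          split_ifs at heq
        · simpa using heq
      · rintro (⟨i, s⟩ | i)
        · dsimp only
          split_ifs with hP
          · exact hP
          · exact hPQ i s hP
        · exact h2 i

/-- Clique `Z` isolated. -/
lemma lower_Z {ρ : ℕ} (hρ : ∀ I ∈ 𝓑, I.card = ρ) {S : Set (Vtx 𝓑 t a b)} (ha : 0 < a) (hb : 0 < b)
    (hne : ∃ u, u ∉ S ∧ inZ u)
    (h : ∀ u v, u ∉ S → v ∉ S → inZ u → ¬ inZ v → ¬ (gr 𝓑 t a b).Adj u v) :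
    (a - 1) + (b - 1) + 2 * ((ρ + 1) * t) ≤ S.ncard ∨
    a + b + 2 * (nb 𝓑 - 1) + 2 * (ρ * t) ≤ S.ncard := by
  classical
  have hA : ∀ I e (i : Fin a), Vtx.Z I e ∉ S → ((i : ℕ) ≠ 0 ∨ e = false) → Vtx.A i ∈ S := by
    intro I e i hZ hi
    by_contra hAi
    exact h _ _ hZ hAi trivial (fun h => h) ((adj_ZA I e i).2 hi)
  have hB : ∀ I e (i : Fin b), Vtx.Z I e ∉ S → ((i : ℕ) ≠ 0 ∨ e = true) → Vtx.B i ∈ S := by
    intro I e i hZ hi
    by_contra hAi
    exact h _ _ hZ hAi trivial (fun h => h) ((adj_ZB I e i).2 hi)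
  have hP : ∀ I e i s, Vtx.Z I e ∉ S → i ∈ I.1 → Vtx.P i s ∈ S := by
    intro I e i s hZ hi
    by_contra hAi
    exact h _ _ hZ hAi trivial (fun h => h) ((adj_ZP I e i s).2 hi)
  have hQ : ∀ I e i s, Vtx.Z I e ∉ S → i ∈ I.1 → Vtx.Q i s ∈ S := by
    intro I e i s hZ hi
    by_contra hAi
    exact h _ _ hZ hAi trivial (fun h => h) ((adj_ZQ I e i s).2 hi)
  obtain ⟨u, huS, huZ⟩ := hne
  obtain ⟨I, e, rfl⟩ : ∃ I e, u = Vtx.Z I e := by
    cases u <;> simp [inZ] at huZ ⊢
  by_cases h1 : ∃ J e', Vtx.Z J e' ∉ S ∧ J ≠ I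
  · left
    obtain ⟨J, e', hJS, hJI⟩ := h1
    obtain ⟨i₀, hi₀J, hi₀I⟩ : ∃ i₀, i₀ ∈ J.1 ∧ i₀ ∉ I.1 := by
      by_contra hcon
      push Not at hcon
      apply hJI
      apply Subtype.ext
      apply Finset.eq_of_subset_of_card_le hcon
      rw [hρ J.1 J.2, hρ I.1 I.2]
    have hPi : ∀ i s, i ∈ insert i₀ I.1 → Vtx.P i s ∈ S := by
      intro i s hi
      rcases Finset.mem_insert.1 hi with rfl | hi
      · exact hP J e' _ s hJS hi₀J
      · exact hP I e _ s huS hi
    have hQi : ∀ i s, i ∈ insert i₀ I.1 → Vtx.Q i s ∈ S := by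
      intro i s hi
      rcases Finset.mem_insert.1 hi with rfl | hi
      · exact hQ J e' _ s hJS hi₀J
      · exact hQ I e _ s huS hi
    have := card_le_of_inj
      (D := ({i : Fin a // (i : ℕ) ≠ 0} ⊕ {i : Fin b // (i : ℕ) ≠ 0}) ⊕
        ((↥(insert i₀ I.1) × Fin t) ⊕ (↥(insert i₀ I.1) × Fin t))) S
      (fun d => match d with
        | Sum.inl (Sum.inl i) => Vtx.A i.1
        | Sum.inl (Sum.inr i) => Vtx.B i.1
        | Sum.inr (Sum.inl (i, s)) => Vtx.P i.1 s
        | Sum.inr (Sum.inr (i, s)) => Vtx.Q i.1 s) ?_ ?_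
    · rw [Nat.card_sum, Nat.card_sum, Nat.card_sum, card_ne_zero_fin a ha, card_ne_zero_fin b hb,
        Nat.card_prod, Nat.card_fin, Nat.card_eq_fintype_card, Fintype.card_coe,
        Finset.card_insert_of_notMem hi₀I, hρ I.1 I.2] at this
      calc _ = a - 1 + (b - 1) + ((ρ + 1) * t + (ρ + 1) * t) := by ring
        _ ≤ _ := this
    · rintro ((i | i) | (⟨i, s⟩ | ⟨i, s⟩)) ((i' | i') | (⟨i', s'⟩ | ⟨i', s'⟩)) heq <;>
        first
          | (simp at heq; done)
          | (simp only [Vtx.A.injEq] at heq; rw [Subtype.ext heq])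
          | (simp only [Vtx.B.injEq] at heq; rw [Subtype.ext heq])
          | (simp only [Vtx.P.injEq] at heq; obtain ⟨h1, h2⟩ := heq; rw [Subtype.ext h1, h2])
          | (simp only [Vtx.Q.injEq] at heq; obtain ⟨h1, h2⟩ := heq; rw [Subtype.ext h1, h2])
    · rintro ((i | i) | (⟨i, s⟩ | ⟨i, s⟩))
      · exact hA I e i.1 huS (Or.inl i.2)
      · exact hB I e i.1 huS (Or.inl i.2)
      · exact hPi i.1 s i.2
      · exact hQi i.1 s i.2
  · right
    push Not at h1
    have hZJ : ∀ J e', J ≠ I → Vtx.Z J e' ∈ S := by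
      intro J e' hJ
      by_contra hcon
      exact hJ (h1 J e' hcon)
    have hA0 : ∀ i : Fin a, Vtx.A i ∉ S → (i : ℕ) = 0 ∧ Vtx.Z I false ∈ S := by
      intro i hi
      have h0 : (i : ℕ) = 0 := by
        by_contra hcon
        exact hi (hA I e i huS (Or.inl hcon))
      refine ⟨h0, ?_⟩
      by_contra hcon
      exact hi (hA I false i hcon (Or.inr rfl))
    have hB0 : ∀ i : Fin b, Vtx.B i ∉ S → (i : ℕ) = 0 ∧ Vtx.Z I true ∈ S := by
      intro i hi
      have h0 : (i : ℕ) = 0 := by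
        by_contra hcon
        exact hi (hB I e i huS (Or.inl hcon))
      refine ⟨h0, ?_⟩
      by_contra hcon
      exact hi (hB I true i hcon (Or.inr rfl))
    have := card_le_of_inj
      (D := (Fin a ⊕ Fin b) ⊕ (({J : Blk 𝓑 // J ≠ I} × Bool) ⊕
        ((↥I.1 × Fin t) ⊕ (↥I.1 × Fin t)))) S
      (fun d => match d with
        | Sum.inl (Sum.inl i) => if Vtx.A i ∈ S then Vtx.A i else Vtx.Z I false
        | Sum.inl (Sum.inr i) => if Vtx.B i ∈ S then Vtx.B i else Vtx.Z I true
        | Sum.inr (Sum.inl (J, e)) => Vtx.Z J.1 e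
        | Sum.inr (Sum.inr (Sum.inl (i, s))) => Vtx.P i.1 s
        | Sum.inr (Sum.inr (Sum.inr (i, s))) => Vtx.Q i.1 s) ?_ ?_
    · have hc : Nat.card {J : Blk 𝓑 // J ≠ I} = nb 𝓑 - 1 := by
        unfold nb
        rw [Nat.card_eq_fintype_card, Nat.card_eq_fintype_card]
        simp [Fintype.card_subtype_compl]
      rw [Nat.card_sum, Nat.card_sum, Nat.card_sum, Nat.card_sum, Nat.card_fin, Nat.card_fin,
        Nat.card_prod, Nat.card_prod, hc, Nat.card_fin, Nat.card_eq_fintype_card,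
        Fintype.card_bool, Nat.card_eq_fintype_card, Fintype.card_coe, hρ I.1 I.2] at this
      calc _ = a + b + ((nb 𝓑 - 1) * 2 + (ρ * t + ρ * t)) := by ring
        _ ≤ _ := this
    · rintro ((i | i) | (⟨J, e⟩ | ⟨i, s⟩ | ⟨i, s⟩)) ((i' | i') | (⟨J', e'⟩ | ⟨i', s'⟩ | ⟨i', s'⟩)) heq
      · dsimp only at heq
        split_ifs at heq with h2 h3 h3
        · simpa using heq
        · have := (hA0 i h2).1
          have := (hA0 i' h3).1
          have : i = i' := Fin.ext (by omega)
          rw [this]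
      · dsimp only at heq
        split_ifs at heq
        simp at heq
      · dsimp only at heq
        split_ifs at heq
        simp only [Vtx.Z.injEq] at heq
        exact absurd heq.1.symm J'.2
      · dsimp only at heq
        split_ifs at heq
      · dsimp only at heq
        split_ifs at heq
      · dsimp only at heq
        split_ifs at heq
        simp at heq
      · dsimp only at heq
        split_ifs at heq with h2 h3 h3
        · simpa using heq
        · have := (hB0 i h2).1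
          have := (hB0 i' h3).1
          have : i = i' := Fin.ext (by omega)
          rw [this]
      · dsimp only at heq
        split_ifs at heq
        simp only [Vtx.Z.injEq] at heq
        exact absurd heq.1.symm J'.2
      · dsimp only at heq
        split_ifs at heq
      · dsimp only at heq
        split_ifs at heq
      · dsimp only at heq
        split_ifs at heq
        simp only [Vtx.Z.injEq] at heq
        exact absurd heq.1 J.2
      · dsimp only at heq
        split_ifs at heq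
        simp only [Vtx.Z.injEq] at heq
        exact absurd heq.1 J.2
      · simp only [Vtx.Z.injEq] at heq
        obtain ⟨h1, h2⟩ := heq
        rw [Subtype.ext h1, h2]
      · simp at heq
      · simp at heq
      · dsimp only at heq
        split_ifs at heq
      · dsimp only at heq
        split_ifs at heq
      · simp at heq
      · simp only [Vtx.P.injEq] at heq
        obtain ⟨h1, h2⟩ := heq
        rw [Subtype.ext h1, h2]
      · simp at heq
      · dsimp only at heq
        split_ifs at heq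
      · dsimp only at heq
        split_ifs at heq
      · simp at heq
      · simp at heq
      · simp only [Vtx.Q.injEq] at heq
        obtain ⟨h1, h2⟩ := heq
        rw [Subtype.ext h1, h2]
    · rintro ((i | i) | (⟨J, e'⟩ | ⟨i, s⟩ | ⟨i, s⟩))
      · dsimp only
        split_ifs with h2
        · exact h2
        · exact (hA0 i h2).2
      · dsimp only
        split_ifs with h2
        · exact h2
        · exact (hB0 i h2).2
      · exact hZJ J.1 e' J.2
      · exact hP I e i.1 s huS i.2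
      · exact hQ I e i.1 s huS i.2

/-- The graph is `n`-connected. -/
lemma lower {ρ : ℕ} (hr : r = 2 * ρ + 1) (hρ : ∀ I ∈ 𝓑, I.card = ρ) (t e : ℕ)
    (ht : 3 * nb 𝓑 + e ≤ t) (h𝓑 : 0 < nb 𝓑) (S : Set (Vtx 𝓑 t (nb 𝓑 + 1 + e) (nb 𝓑 + 1)))
    (hS : Disconnects (gr 𝓑 t (nb 𝓑 + 1 + e) (nb 𝓑 + 1)) S) :
    4 * nb 𝓑 + e + 2 * (ρ * t) ≤ S.ncard := by
  have e1 : r * t = 2 * (ρ * t) + t := by rw [hr]; ring
  have e2 : (ρ + 1) * t = ρ * t + t := by ring
  rcases three_cases hS with ⟨hne, h⟩ | ⟨hne, h⟩ | ⟨hne, h⟩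
  · rcases lower_X (by omega) hne h with h | h | h <;> omega
  · rcases lower_Y (by omega) hne h with h | h | h <;> omega
  · rcases lower_Z hρ (by omega) (by omega) hne h with h | h <;> omega

/-- The neighbourhood of a block. -/
def sep (I : Blk 𝓑) : Set (Vtx 𝓑 t a b) :=
  {v | match v with
    | .A _ => True
    | .B _ => True
    | .Z J _ => J ≠ I
    | .P i _ => i ∈ I.1
    | .Q i _ => i ∈ I.1}

lemma sep_ncard {ρ : ℕ} (hρ : ∀ I ∈ 𝓑, I.card = ρ) (I : Blk 𝓑) : (sep I : Set (Vtx 𝓑 t a b)).ncard =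
    a + b + 2 * (nb 𝓑 - 1) + 2 * (ρ * t) := by
  classical
  rw [card_eq_of_inj (D := (Fin a ⊕ Fin b) ⊕ (({J : Blk 𝓑 // J ≠ I} × Bool) ⊕
        ((↥I.1 × Fin t) ⊕ (↥I.1 × Fin t)))) (sep I : Set (Vtx 𝓑 t a b))
      (fun d => match d with
        | Sum.inl (Sum.inl i) => Vtx.A i
        | Sum.inl (Sum.inr i) => Vtx.B i
        | Sum.inr (Sum.inl (J, e)) => Vtx.Z J.1 e
        | Sum.inr (Sum.inr (Sum.inl (i, s))) => Vtx.P i.1 s
        | Sum.inr (Sum.inr (Sum.inr (i, s))) => Vtx.Q i.1 s) ?_ ?_ ?_]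
  · have hc : Nat.card {J : Blk 𝓑 // J ≠ I} = nb 𝓑 - 1 := by
      unfold nb
      rw [Nat.card_eq_fintype_card, Nat.card_eq_fintype_card]
      simp [Fintype.card_subtype_compl]
    rw [Nat.card_sum, Nat.card_sum, Nat.card_sum, Nat.card_sum, Nat.card_fin, Nat.card_fin,
      Nat.card_prod, Nat.card_prod, hc, Nat.card_fin, Nat.card_eq_fintype_card,
      Fintype.card_bool, Nat.card_eq_fintype_card, Fintype.card_coe, hρ I.1 I.2]
    ring
  · rintro ((i | i) | (⟨J, e⟩ | ⟨i, s⟩ | ⟨i, s⟩)) ((i' | i') | (⟨J', e'⟩ | ⟨i', s'⟩ | ⟨i', s'⟩)) heq <;>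
      first
        | (simp at heq; done)
        | (simp only [Vtx.A.injEq] at heq; rw [heq])
        | (simp only [Vtx.B.injEq] at heq; rw [heq])
        | (simp only [Vtx.Z.injEq] at heq; obtain ⟨h1, h2⟩ := heq; rw [Subtype.ext h1, h2])
        | (simp only [Vtx.P.injEq] at heq; obtain ⟨h1, h2⟩ := heq; rw [Subtype.ext h1, h2])
        | (simp only [Vtx.Q.injEq] at heq; obtain ⟨h1, h2⟩ := heq; rw [Subtype.ext h1, h2])
  · rintro ((i | i) | (⟨J, e⟩ | ⟨i, s⟩ | ⟨i, s⟩))
    · trivial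
    · trivial
    · exact J.2
    · exact i.2
    · exact i.2
  · intro v hv
    cases v with
    | A i => exact ⟨Sum.inl (Sum.inl i), rfl⟩
    | B i => exact ⟨Sum.inl (Sum.inr i), rfl⟩
    | Z J e => exact ⟨Sum.inr (Sum.inl (⟨J, hv⟩, e)), rfl⟩
    | P i s => exact ⟨Sum.inr (Sum.inr (Sum.inl (⟨i, hv⟩, s))), rfl⟩
    | Q i s => exact ⟨Sum.inr (Sum.inr (Sum.inr (⟨i, hv⟩, s))), rfl⟩

lemma exists_notMem {ρ : ℕ} (hr : r = 2 * ρ + 1) (hρ : ∀ I ∈ 𝓑, I.card = ρ) (I : Blk 𝓑) :
    ∃ i, i ∉ I.1 := by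
  by_contra hcon
  push Not at hcon
  have h1 : I.1 = Finset.univ := Finset.eq_univ_iff_forall.2 hcon
  have h2 := hρ I.1 I.2
  rw [h1, Finset.card_univ, Fintype.card_fin] at h2
  omega

lemma sep_disconnects {ρ : ℕ} (hr : r = 2 * ρ + 1) (hρ : ∀ I ∈ 𝓑, I.card = ρ) (ht : 0 < t) (I : Blk 𝓑) :
    Disconnects (gr 𝓑 t a b) (sep I : Set (Vtx 𝓑 t a b)) := by
  rw [disconnects_iff]
  obtain ⟨i₀, hi₀⟩ := exists_notMem hr hρ I
  refine ⟨{v | ∃ e, v = Vtx.Z I e}, ⟨Vtx.Z I true, ?_, true, rfl⟩,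
    ⟨Vtx.P i₀ ⟨0, ht⟩, hi₀, ?_⟩, ?_⟩
  · intro h
    exact h rfl
  · rintro ⟨e, h⟩
    cases h
  · intro u v hu hv huv
    have key : ∀ u v : Vtx 𝓑 t a b, u ∉ sep I → v ∉ sep I → (gr 𝓑 t a b).Adj u v →
        (∃ e, u = Vtx.Z I e) → ∃ e, v = Vtx.Z I e := by
      rintro u v hu hv huv ⟨e, rfl⟩
      cases v with
      | A i => exact absurd trivial hv
      | B i => exact absurd trivial hv
      | Z J e' =>
        have : J = I := by
          by_contra h
          exact hv h
        exact ⟨e', by rw [this]⟩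
      | P i s => exact absurd ((adj_ZP I e i s).1 huv) hv
      | Q i s => exact absurd ((adj_ZQ I e i s).1 huv) hv
    exact ⟨key u v hu hv huv, key v u hv hu huv.symm⟩

/-- A block containing a small set and avoiding few given blocks. -/
lemma exists_block {ρ k : ℕ} (hr : r = 2 * ρ + 1) (hρ : ∀ I ∈ 𝓑, I.card = ρ)
    (hcov : ∀ H : Finset (Fin r), H.card ≤ k → ∃ I ∈ 𝓑, H ⊆ I) (H : Finset (Fin r))
    (J : Finset (Blk 𝓑)) (hJ : H.card + J.card ≤ k) : ∃ I : Blk 𝓑, H ⊆ I.1 ∧ I ∉ J := by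
  classical
  choose x hx using fun I : Blk 𝓑 => exists_notMem hr hρ I
  obtain ⟨I, hI, hsub⟩ := hcov (H ∪ J.image x)
    ((Finset.card_union_le _ _).trans ((Nat.add_le_add_left Finset.card_image_le _).trans hJ))
  refine ⟨⟨I, hI⟩, Finset.union_subset_left hsub, fun hIJ => ?_⟩
  exact hx ⟨I, hI⟩ (hsub (Finset.mem_union_right _ (Finset.mem_image_of_mem x hIJ)))

/-- `v` lies in `P` or in `Q`. -/
private def isPQ : Vtx 𝓑 t a b → Prop
  | .P _ _ => True
  | .Q _ _ => True
  | _ => False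

lemma exists_sep {ρ k : ℕ} (hr : r = 2 * ρ + 1) (hρ : ∀ I ∈ 𝓑, I.card = ρ)
    (hcov : ∀ H : Finset (Fin r), H.card ≤ k → ∃ I ∈ 𝓑, H ⊆ I) (X : Set (Vtx 𝓑 t a b))
    (hX : X.ncard ≤ k) : ∃ I : Blk 𝓑, X ⊆ sep I := by
  classical
  obtain ⟨I₀, hI₀, -⟩ := hcov ∅ (by simp)
  have hr0 : 0 < r := by omega
  let f : Vtx 𝓑 t a b → Fin r := fun v => match v with
    | .P i _ => i
    | .Q i _ => i
    | _ => ⟨0, hr0⟩
  let g : Vtx 𝓑 t a b → Blk 𝓑 := fun v => match v with
    | .Z J _ => J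
    | _ => ⟨I₀, hI₀⟩
  have hfin : X.Finite := Set.toFinite X
  have hcard : hfin.toFinset.card ≤ k := by
    rw [← Set.ncard_eq_toFinset_card X hfin]
    exact hX
  have hsum : ((hfin.toFinset.filter isPQ).image f).card +
      ((hfin.toFinset.filter fun v => ¬ isPQ v).image g).card ≤ k := by
    have h1 := Finset.card_image_le (s := hfin.toFinset.filter isPQ) (f := f)
    have h2 := Finset.card_image_le (s := hfin.toFinset.filter fun v => ¬ isPQ v) (f := g)
    have h3 := Finset.card_filter_add_card_filter_not (s := hfin.toFinset) isPQ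
    omega
  obtain ⟨I, hI1, hI2⟩ := exists_block hr hρ hcov _ _ hsum
  refine ⟨I, ?_⟩
  intro v hv
  have hv' := hfin.mem_toFinset.2 hv
  have hf : isPQ v → f v ∈ I.1 := fun h =>
    hI1 (Finset.mem_image_of_mem f (Finset.mem_filter.2 ⟨hv', h⟩))
  have hg : ¬ isPQ v → g v ≠ I := by
    intro h h'
    exact hI2 (h' ▸ Finset.mem_image_of_mem g (Finset.mem_filter.2 ⟨hv', h⟩))
  cases v with
  | A i => trivial
  | B i => trivial
  | Z J e => exact hg (fun h => h)
  | P i s => exact hf trivial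
  | Q i s => exact hf trivial

lemma exists_adj_of_mem_sep (I : Blk 𝓑) (v : Vtx 𝓑 t a b) (hv : v ∈ sep I) :
    ∃ e, (gr 𝓑 t a b).Adj v (Vtx.Z I e) := by
  cases v with
  | A i => exact ⟨false, ((adj_ZA I false i).2 (Or.inr rfl)).symm⟩
  | B i => exact ⟨true, ((adj_ZB I true i).2 (Or.inr rfl)).symm⟩
  | Z J e =>
    refine ⟨true, adj_Z trivial trivial ?_⟩
    intro h
    have : J = I := by
      cases h
      rfl
    exact hv this
  | P i s => exact ⟨true, ((adj_ZP I true i s).2 hv).symm⟩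
  | Q i s => exact ⟨true, ((adj_ZQ I true i s).2 hv).symm⟩

/-- Any two vertices are joined by a walk of length at most three. -/
lemma exists_walk {ρ k : ℕ} (hr : r = 2 * ρ + 1) (hρ : ∀ I ∈ 𝓑, I.card = ρ)
    (hcov : ∀ H : Finset (Fin r), H.card ≤ k → ∃ I ∈ 𝓑, H ⊆ I) (hk : 2 ≤ k) (u v : Vtx 𝓑 t a b) :
    ∃ p : (gr 𝓑 t a b).Walk u v, p.length ≤ 3 := by
  have h2 : ({u, v} : Set (Vtx 𝓑 t a b)).ncard ≤ 2 := by
    have := Set.ncard_insert_le u ({v} : Set (Vtx 𝓑 t a b))
    rwa [Set.ncard_singleton] at this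
  obtain ⟨I, hI⟩ := exists_sep hr hρ hcov ({u, v} : Set (Vtx 𝓑 t a b)) (h2.trans hk)
  obtain ⟨e, he⟩ := exists_adj_of_mem_sep I u (hI (by simp))
  obtain ⟨e', he'⟩ := exists_adj_of_mem_sep I v (hI (by simp))
  by_cases hee : e = e'
  · subst hee
    exact ⟨Walk.cons he (Walk.cons he'.symm Walk.nil), by simp⟩
  · have h1 : (gr 𝓑 t a b).Adj (Vtx.Z I e) (Vtx.Z I e') := by
      refine adj_Z (u := Vtx.Z I e) (v := Vtx.Z I e') trivial trivial ?_
      intro h
      simp only [Vtx.Z.injEq, true_and] at h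
      exact hee h
    exact ⟨Walk.cons he (Walk.cons h1 (Walk.cons he'.symm Walk.nil)), by simp⟩

lemma connected {ρ k : ℕ} (hr : r = 2 * ρ + 1) (hρ : ∀ I ∈ 𝓑, I.card = ρ)
    (hcov : ∀ H : Finset (Fin r), H.card ≤ k → ∃ I ∈ 𝓑, H ⊆ I) (hk : 2 ≤ k) (ha : 0 < a) : (gr 𝓑 t a b).Connected := by
  have : Nonempty (Vtx 𝓑 t a b) := ⟨Vtx.A ⟨0, ha⟩⟩
  refine ⟨fun u v => ?_⟩
  obtain ⟨p, -⟩ := exists_walk hr hρ hcov hk u v
  exact ⟨p⟩

lemma three_le_dist {ρ k : ℕ} (hr : r = 2 * ρ + 1) (hρ : ∀ I ∈ 𝓑, I.card = ρ)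
    (hcov : ∀ H : Finset (Fin r), H.card ≤ k → ∃ I ∈ 𝓑, H ⊆ I) (hk : 2 ≤ k) (ha : 0 < a) (hb : 0 < b) :
    3 ≤ (gr 𝓑 t a b).dist (Vtx.A ⟨0, ha⟩) (Vtx.B ⟨0, hb⟩) := by
  obtain ⟨p, hp⟩ := (connected (t := t) (b := b) hr hρ hcov hk ha).exists_walk_length_eq_dist
    (Vtx.A ⟨0, ha⟩) (Vtx.B ⟨0, hb⟩)
  rw [← hp]
  cases p with
  | cons h1 p =>
    cases p with
    | nil =>
      exfalso
      simp [gr, fromRel_adj, rel] at h1
    | @cons _ w _ h2 p =>
      cases p with
      | nil =>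
        exfalso
        rename_i w
        cases w with
        | A i => simp [gr, fromRel_adj, rel] at h2
        | B i => simp [gr, fromRel_adj, rel] at h1
        | Z J e =>
          have h3 := (adj_ZA J e ⟨0, ha⟩).1 h1.symm
          have h4 := (adj_ZB J e ⟨0, hb⟩).1 h2
          simp at h3 h4
          rw [h3] at h4
          exact absurd h4 (by simp)
        | P i s => simp [gr, fromRel_adj, rel] at h2
        | Q i s => simp [gr, fromRel_adj, rel] at h1
      | cons h3 p =>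
        simp only [Walk.length_cons]
        omega

lemma diam_eq {ρ k : ℕ} (hr : r = 2 * ρ + 1) (hρ : ∀ I ∈ 𝓑, I.card = ρ)
    (hcov : ∀ H : Finset (Fin r), H.card ≤ k → ∃ I ∈ 𝓑, H ⊆ I) (hk : 2 ≤ k) (ha : 0 < a) (hb : 0 < b) : (gr 𝓑 t a b).diam = 3 := by
  have : Nonempty (Vtx 𝓑 t a b) := ⟨Vtx.A ⟨0, ha⟩⟩
  have hconn : (gr 𝓑 t a b).Connected := connected hr hρ hcov hk ha
  apply le_antisymm
  · obtain ⟨u, v, huv⟩ := (gr 𝓑 t a b).exists_dist_eq_diam
    rw [← huv]
    obtain ⟨p, hp⟩ := exists_walk hr hρ hcov hk u v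
    exact (dist_le p).trans hp
  · exact (three_le_dist hr hρ hcov hk ha hb).trans (dist_le_diam (connected_iff_ediam_ne_top.1 hconn))

lemma isNK {ρ k : ℕ} (hr : r = 2 * ρ + 1) (hρ : ∀ I ∈ 𝓑, I.card = ρ)
    (hcov : ∀ H : Finset (Fin r), H.card ≤ k → ∃ I ∈ 𝓑, H ⊆ I) (t e : ℕ)
    (ht : 3 * nb 𝓑 + e ≤ t) :
    IsNK (4 * nb 𝓑 + e + 2 * (ρ * t)) k (gr 𝓑 t (nb 𝓑 + 1 + e) (nb 𝓑 + 1)) := by
  obtain ⟨I₀, hI₀, -⟩ := hcov ∅ (by simp)
  have h𝓑 : 0 < nb 𝓑 := by
    unfold nb
    have : Nonempty (Blk 𝓑) := ⟨⟨I₀, hI₀⟩⟩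
    exact Nat.card_pos
  apply isNK_of
  · intro S hS
    exact lower hr hρ t e ht h𝓑 S hS
  · intro X hX
    obtain ⟨I, hI⟩ := exists_sep hr hρ hcov X hX
    refine ⟨sep I, hI, sep_disconnects hr hρ (by omega) I, ?_⟩
    rw [sep_ncard hρ]
    omega

end Pool.Agent.CritLog
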