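import Mathlib

/-! # Coverings of the k-subsets by about `2 ^ k` sets of half the size -/

namespace Pool.Agent.CritLog

open Finset

section Greedy

variable {α β : Type} [DecidableEq α] [DecidableEq β]

/-- The greedy covering. -/
theorem greedy (T : Finset α) (U : Finset β) (R : α → β → Prop) (N : ℕ)
    (hU : U.Nonempty) (hN : 1 ≤ N)
    (h : ∀ a ∈ T, ∀ (U' : Finset β), (∀ b, b ∈ U' ↔ b ∈ U ∧ R a b) → U.card ≤ N * U'.card) (s : ℕ) :
    ∃ (B : Finset β) (T' : Finset α), B ⊆ U ∧ B.card ≤ s ∧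
      (∀ a ∈ T, a ∉ T' → ∃ b ∈ B, R a b) ∧ N ^ s * T'.card ≤ (N - 1) ^ s * T.card := by
  classical
  have key : ∀ s, ∃ (B : Finset β) (T' : Finset α), T' ⊆ T ∧ B ⊆ U ∧ B.card ≤ s ∧
      (∀ a ∈ T, a ∉ T' → ∃ b ∈ B, R a b) ∧ N ^ s * T'.card ≤ (N - 1) ^ s * T.card := by
    intro s
    induction s with
    | zero => exact ⟨∅, T, Subset.refl _, by simp, by simp, fun a ha ha' => absurd ha ha', by simp⟩
    | succ s ih =>
      obtain ⟨B, T', hT', hB, hBc, hcov, hcard⟩ := ih
      -- a good block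
      have h1 : ∑ b ∈ U, (T'.filter fun a => R a b).card = ∑ a ∈ T', (U.filter fun b => R a b).card := by
        simp only [card_filter]
        exact sum_comm
      have h2 : U.card * T'.card ≤ N * ∑ a ∈ T', (U.filter fun b => R a b).card := by
        rw [mul_sum]
        calc U.card * T'.card = ∑ _a ∈ T', U.card := by rw [sum_const, smul_eq_mul, mul_comm]
          _ ≤ ∑ a ∈ T', N * (U.filter fun b => R a b).card :=
              sum_le_sum fun a ha => h a (hT' ha) _ fun b => by rw [mem_filter]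
      obtain ⟨b, hb, hmax⟩ := exists_max_image U (fun b => (T'.filter fun a => R a b).card) hU
      have h3 : ∑ b ∈ U, (T'.filter fun a => R a b).card ≤
          U.card * (T'.filter fun a => R a b).card := by
        have := sum_le_card_nsmul U (fun b => (T'.filter fun a => R a b).card) _ hmax
        rwa [smul_eq_mul] at this
      have h4 : T'.card ≤ N * (T'.filter fun a => R a b).card := by
        have h5 : U.card * T'.card ≤ U.card * (N * (T'.filter fun a => R a b).card) := by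
          refine h2.trans ?_
          rw [← h1]
          calc N * ∑ b ∈ U, (T'.filter fun a => R a b).card ≤
              N * (U.card * (T'.filter fun a => R a b).card) := Nat.mul_le_mul_left _ h3
            _ = U.card * (N * (T'.filter fun a => R a b).card) := by ring
        exact Nat.le_of_mul_le_mul_left h5 hU.card_pos
      refine ⟨insert b B, T'.filter fun a => ¬ R a b, (filter_subset _ _).trans hT',
        insert_subset hb hB, (card_insert_le _ _).trans (by omega), ?_, ?_⟩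
      · intro a ha ha'
        by_cases haT : a ∈ T'
        · have : R a b := by
            by_contra hcon
            exact ha' (mem_filter.2 ⟨haT, hcon⟩)
          exact ⟨b, mem_insert_self _ _, this⟩
        · obtain ⟨b', hb', hR⟩ := hcov a ha haT
          exact ⟨b', mem_insert_of_mem hb', hR⟩
      · have h5 := card_filter_add_card_filter_not (s := T') fun a => R a b
        obtain ⟨M, rfl⟩ : ∃ M, N = M + 1 := ⟨N - 1, by omega⟩
        rw [Nat.add_sub_cancel] at hcard ⊢
        have h6 : (M + 1) * (T'.filter fun a => ¬ R a b).card ≤ M * T'.card := by nlinarith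
        calc (M + 1) ^ (s + 1) * (T'.filter fun a => ¬ R a b).card =
            (M + 1) ^ s * ((M + 1) * (T'.filter fun a => ¬ R a b).card) := by ring
          _ ≤ (M + 1) ^ s * (M * T'.card) := Nat.mul_le_mul_left _ h6
          _ = M * ((M + 1) ^ s * T'.card) := by ring
          _ ≤ M * (M ^ s * T.card) := Nat.mul_le_mul_left _ hcard
          _ = M ^ (s + 1) * T.card := by ring
  obtain ⟨B, T', -, h1, h2, h3, h4⟩ := key s
  exact ⟨B, T', h1, h2, h3, h4⟩

end Greedy

theorem bern (M j : ℕ) : M ^ j * (M + j) ≤ M * (M + 1) ^ j := by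
  induction j with
  | zero => simp
  | succ j ih =>
    calc M ^ (j + 1) * (M + (j + 1)) ≤ (M + 1) * (M ^ j * (M + j)) := by
          have : (M + 1) * (M ^ j * (M + j)) = M ^ (j + 1) * (M + (j + 1)) + M ^ j * j := by ring
          omega
      _ ≤ (M + 1) * (M * (M + 1) ^ j) := Nat.mul_le_mul_left _ ih
      _ = M * (M + 1) ^ (j + 1) := by ring

theorem bern2 {M : ℕ} (hM : 0 < M) (L : ℕ) :
    2 ^ L * M ^ ((M + 1) * L) ≤ (M + 1) ^ ((M + 1) * L) := by
  have h1 : 2 * M ^ (M + 1) ≤ (M + 1) ^ (M + 1) := by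
    have h2 := bern M (M + 1)
    have h3 : M * (2 * M ^ (M + 1)) ≤ M * (M + 1) ^ (M + 1) := by
      refine le_trans ?_ h2
      have : M ^ (M + 1) * (M + (M + 1)) = M * (2 * M ^ (M + 1)) + M ^ (M + 1) := by ring
      omega
    exact Nat.le_of_mul_le_mul_left h3 hM
  calc 2 ^ L * M ^ ((M + 1) * L) = (2 * M ^ (M + 1)) ^ L := by
        rw [mul_pow, pow_mul]
    _ ≤ ((M + 1) ^ (M + 1)) ^ L := Nat.pow_le_pow_left h1 _
    _ = (M + 1) ^ ((M + 1) * L) := by rw [pow_mul]

theorem desc_le {k ρ : ℕ} (hρ : k ^ 2 + k ≤ ρ) (j : ℕ) (hj : j ≤ k) :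
    k * (2 * ρ + 1).descFactorial j ≤ 2 ^ j * (k + j) * ρ.descFactorial j := by
  induction j with
  | zero => simp
  | succ j ih =>
    have ih := ih (by omega)
    rw [Nat.descFactorial_succ, Nat.descFactorial_succ]
    have hjρ : j ≤ ρ := by nlinarith
    obtain ⟨d, rfl⟩ : ∃ d, ρ = j + d := ⟨ρ - j, by omega⟩
    have e1 : 2 * (j + d) + 1 - j = 2 * d + j + 1 := by omega
    have e2 : j + d - j = d := by omega
    rw [e1, e2]
    have h1 : (2 * d + j + 1) * (k + j) ≤ 2 * (k + j + 1) * d := by nlinarith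
    calc k * ((2 * d + j + 1) * (2 * (j + d) + 1).descFactorial j) =
        (2 * d + j + 1) * (k * (2 * (j + d) + 1).descFactorial j) := by ring
      _ ≤ (2 * d + j + 1) * (2 ^ j * (k + j) * (j + d).descFactorial j) :=
          Nat.mul_le_mul_left _ ih
      _ = ((2 * d + j + 1) * (k + j)) * (2 ^ j * (j + d).descFactorial j) := by ring
      _ ≤ (2 * (k + j + 1) * d) * (2 ^ j * (j + d).descFactorial j) := Nat.mul_le_mul_right _ h1
      _ = 2 ^ (j + 1) * (k + (j + 1)) * (d * (j + d).descFactorial j) := by ring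

theorem choose_le {k ρ : ℕ} (hk : 1 ≤ k) (hρ : k ^ 2 + k ≤ ρ) :
    (2 * ρ + 1).choose k ≤ 2 ^ (k + 1) * ρ.choose k := by
  have h1 := desc_le hρ k le_rfl
  rw [Nat.descFactorial_eq_factorial_mul_choose, Nat.descFactorial_eq_factorial_mul_choose] at h1
  have h2 : (k * k.factorial) * (2 * ρ + 1).choose k ≤
      (k * k.factorial) * (2 ^ (k + 1) * ρ.choose k) := by
    calc (k * k.factorial) * (2 * ρ + 1).choose k =
        k * (k.factorial * (2 * ρ + 1).choose k) := by ring
      _ ≤ 2 ^ k * (k + k) * (k.factorial * ρ.choose k) := h1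
      _ = (k * k.factorial) * (2 ^ (k + 1) * ρ.choose k) := by ring
  exact Nat.le_of_mul_le_mul_left h2 (Nat.mul_pos hk (Nat.factorial_pos k))

theorem frac_le {k ρ : ℕ} (hk : 1 ≤ k) (hρ : k ^ 2 + k ≤ ρ) :
    (2 * ρ + 1).choose ρ ≤ 2 ^ (k + 1) * (2 * ρ + 1 - k).choose (ρ - k) := by
  have hkρ : k ≤ ρ := by nlinarith
  have h1 : (2 * ρ + 1).choose ρ * ρ.choose k =
      (2 * ρ + 1).choose k * (2 * ρ + 1 - k).choose (ρ - k) :=
    Nat.choose_mul hkρ
  have h2 : ρ.choose k * (2 * ρ + 1).choose ρ ≤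
      ρ.choose k * (2 ^ (k + 1) * (2 * ρ + 1 - k).choose (ρ - k)) := by
    calc ρ.choose k * (2 * ρ + 1).choose ρ =
        (2 * ρ + 1).choose k * (2 * ρ + 1 - k).choose (ρ - k) := by rw [mul_comm, h1]
      _ ≤ (2 ^ (k + 1) * ρ.choose k) * (2 * ρ + 1 - k).choose (ρ - k) :=
          Nat.mul_le_mul_right _ (choose_le hk hρ)
      _ = ρ.choose k * (2 ^ (k + 1) * (2 * ρ + 1 - k).choose (ρ - k)) := by ring
  exact Nat.le_of_mul_le_mul_left h2 (Nat.choose_pos hkρ)

theorem parts_le (k : ℕ) : 2 * (k ^ 2 + k) + 1 ≤ 2 ^ (k + 2) := by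
  rcases k with _ | _ | k
  · norm_num
  · norm_num
  · induction k with
    | zero => norm_num
    | succ k ih =>
      have : 2 ^ (k + 1 + 1 + 1 + 2) = 2 * 2 ^ (k + 1 + 1 + 2) := by ring
      nlinarith

/-- The covering. -/
theorem exists_cover (k : ℕ) (hk : 1 ≤ k) :
    ∃ 𝓑 : Finset (Finset (Fin (2 * (k ^ 2 + k) + 1))), (∀ I ∈ 𝓑, I.card = k ^ 2 + k) ∧
      (∀ H : Finset (Fin (2 * (k ^ 2 + k) + 1)), H.card ≤ k → ∃ I ∈ 𝓑, H ⊆ I) ∧
      𝓑.card ≤ 2 ^ (k + 1) * (k + 1) ^ 2 := by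
  classical
  obtain ⟨ρ, hρ⟩ : ∃ ρ, ρ = k ^ 2 + k := ⟨_, rfl⟩
  rw [← hρ]
  have hkρ : k ≤ ρ := by nlinarith
  set U : Finset (Finset (Fin (2 * ρ + 1))) := powersetCard ρ univ with hU
  set T : Finset (Finset (Fin (2 * ρ + 1))) := powersetCard k univ with hT
  have hUc : U.card = (2 * ρ + 1).choose ρ := by rw [hU, card_powersetCard, card_univ, Fintype.card_fin]
  have hTc : T.card = (2 * ρ + 1).choose k := by rw [hT, card_powersetCard, card_univ, Fintype.card_fin]
  have hUne : U.Nonempty := by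
    rw [← card_pos, hUc]
    exact Nat.choose_pos (by omega)
  have hfrac : ∀ H ∈ T, ∀ (U' : Finset (Finset (Fin (2 * ρ + 1)))),
      (∀ I, I ∈ U' ↔ I ∈ U ∧ H ⊆ I) → U.card ≤ 2 ^ (k + 1) * U'.card := by
    intro H hH U' hU'
    have hHc : H.card = k := (mem_powersetCard.1 hH).2
    rw [hUc]
    refine (frac_le hk hρ.ge).trans (Nat.mul_le_mul_left _ ?_)
    have h1 : (powersetCard (ρ - k) Hᶜ).card = (2 * ρ + 1 - k).choose (ρ - k) := by
      rw [card_powersetCard, card_compl, Fintype.card_fin, hHc]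
    rw [← h1]
    refine card_le_card_of_injOn (fun J => J ∪ H) ?_ ?_
    · intro J hJ
      rw [mem_coe, mem_powersetCard] at hJ
      rw [mem_coe, hU']
      refine ⟨mem_powersetCard.2 ⟨subset_univ _, ?_⟩, subset_union_right⟩
      have hdis : Disjoint J H := by
        rw [Finset.disjoint_left]
        intro x hx hx'
        exact (mem_compl.1 (hJ.1 hx)) hx'
      show (J ∪ H).card = ρ
      rw [card_union_of_disjoint hdis, hJ.2, hHc]
      omega
    · intro J hJ J' hJ' heq
      rw [mem_coe, mem_powersetCard] at hJ hJ'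
      have heq' : J ∪ H = J' ∪ H := heq
      have key : ∀ J : Finset (Fin (2 * ρ + 1)), J ⊆ Hᶜ → (J ∪ H) \ H = J := by
        intro J hJ
        ext x
        rw [mem_sdiff, mem_union]
        constructor
        · rintro ⟨h2 | h2, h3⟩
          · exact h2
          · exact absurd h2 h3
        · intro h2
          exact ⟨Or.inl h2, mem_compl.1 (hJ h2)⟩
      rw [← key J hJ.1, heq', key J' hJ'.1]
  obtain ⟨M, hM⟩ : ∃ M, 2 ^ (k + 1) = M + 1 := ⟨2 ^ (k + 1) - 1, by
    have := Nat.one_le_two_pow (n := k + 1)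
    omega⟩
  have hM0 : 0 < M := by
    have : 2 ^ (0 + 1) ≤ 2 ^ (k + 1) := Nat.pow_le_pow_right (by norm_num) (by omega)
    omega
  obtain ⟨B, T', h1, h2, h3, h4⟩ := greedy T U (fun H I => H ⊆ I) (2 ^ (k + 1)) hUne
    Nat.one_le_two_pow hfrac (2 ^ (k + 1) * (k + 1) ^ 2)
  rw [hM, Nat.add_sub_cancel] at h4
  have hT' : T'.card = 0 := by
    by_contra hne
    have h5 : (M + 1) ^ ((M + 1) * (k + 1) ^ 2) ≤ M ^ ((M + 1) * (k + 1) ^ 2) * T.card := by
      refine le_trans ?_ h4
      exact Nat.le_mul_of_pos_right _ (Nat.pos_of_ne_zero hne)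
    have h6 := (bern2 hM0 ((k + 1) ^ 2)).trans h5
    have h7 : 2 ^ ((k + 1) ^ 2) ≤ T.card := by
      rw [mul_comm] at h6
      exact Nat.le_of_mul_le_mul_left h6 (pow_pos hM0 _)
    have h8 : T.card ≤ 2 ^ ((k + 2) * k) := by
      rw [hTc, pow_mul]
      refine (Nat.choose_le_pow _ _).trans (Nat.pow_le_pow_left ?_ _)
      rw [hρ]
      exact parts_le k
    have h9 : 2 ^ ((k + 2) * k) < 2 ^ ((k + 1) ^ 2) := by
      apply Nat.pow_lt_pow_right (by norm_num)
      nlinarith
    omega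
  refine ⟨B, fun I hI => (mem_powersetCard.1 (h1 hI)).2, fun H hH => ?_, h2⟩
  obtain ⟨H', hHH', hH'⟩ := exists_superset_card_eq (s := H) (n := k) hH
    (by rw [Fintype.card_fin]; omega)
  obtain ⟨I, hI, hsub⟩ := h3 H' (mem_powersetCard.2 ⟨subset_univ _, hH'⟩) (by
    rw [card_eq_zero] at hT'
    rw [hT']
    exact notMem_empty _)
  exact ⟨I, hI, hHH'.trans hsub⟩

end Pool.Agent.CritLog
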