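import Pool.Agent.CritDiam.Basic

/-! # Fragments of a k-critically n-connected graph

If `G` is not complete, `k`-critically `m`-connected and has at least `2 m + 2` vertices, then `k ≤ log₂ m + 1`: the
number of inclusion-minimal small fragments whose neighbourhood contains `S` can be halved by adding one vertex to `S`. -/

namespace Pool.Agent.CritLog

open SimpleGraph Finset

variable {V : Type} [Fintype V] [DecidableEq V] (G : SimpleGraph V)

open Classical in
/-- The neighbourhood of a vertex set. -/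
noncomputable def nbr (F : Finset V) : Finset V :=
  univ.filter fun v => v ∉ F ∧ ∃ u ∈ F, G.Adj u v

open Classical in
/-- The vertices outside `F` and its neighbourhood. -/
noncomputable def co (F : Finset V) : Finset V :=
  univ.filter fun v => v ∉ F ∧ ∀ u ∈ F, ¬ G.Adj u v

variable {G}

theorem mem_nbr {F : Finset V} {v : V} : v ∈ nbr G F ↔ v ∉ F ∧ ∃ u ∈ F, G.Adj u v := by
  simp [nbr]

theorem mem_co {F : Finset V} {v : V} : v ∈ co G F ↔ v ∉ F ∧ ∀ u ∈ F, ¬ G.Adj u v := by
  simp [co]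

theorem mem_three (F : Finset V) (v : V) : v ∈ F ∨ v ∈ nbr G F ∨ v ∈ co G F := by
  rw [mem_nbr, mem_co]
  by_cases h : v ∈ F
  · exact Or.inl h
  · by_cases h' : ∃ u ∈ F, G.Adj u v
    · exact Or.inr (Or.inl ⟨h, h'⟩)
    · push Not at h'
      exact Or.inr (Or.inr ⟨h, h'⟩)

theorem card_split (G : SimpleGraph V) (X B : Finset V) :
    X.card = (X ∩ B).card + (X ∩ nbr G B).card + (X ∩ co G B).card := by
  have h1 := card_inter_add_card_sdiff X B
  have h2 : X \ B = (X ∩ nbr G B) ∪ (X ∩ co G B) := by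
    ext v
    simp only [mem_sdiff, mem_union, mem_inter]
    constructor
    · rintro ⟨h3, h4⟩
      rcases mem_three (G := G) B v with h | h | h
      · exact absurd h h4
      · exact Or.inl ⟨h3, h⟩
      · exact Or.inr ⟨h3, h⟩
    · rintro (⟨h3, h4⟩ | ⟨h3, h4⟩)
      · exact ⟨h3, (mem_nbr.1 h4).1⟩
      · exact ⟨h3, (mem_co.1 h4).1⟩
  have h3 : Disjoint (X ∩ nbr G B) (X ∩ co G B) := by
    rw [Finset.disjoint_left]
    intro v hv hv'
    obtain ⟨-, u, hu, huv⟩ := mem_nbr.1 (mem_inter.1 hv).2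
    exact (mem_co.1 (mem_inter.1 hv').2).2 u hu huv
  rw [h2, card_union_of_disjoint h3] at h1
  omega

theorem card_three (G : SimpleGraph V) (B : Finset V) :
    Fintype.card V = B.card + (nbr G B).card + (co G B).card := by
  have h := card_split G univ B
  rwa [univ_inter, univ_inter, univ_inter, card_univ] at h

theorem co_anti {A B : Finset V} (h : A ⊆ B) : co G B ⊆ co G A := by
  intro v hv
  rw [mem_co] at hv ⊢
  exact ⟨fun h1 => hv.1 (h h1), fun u hu => hv.2 u (h hu)⟩

theorem nbr_inter_sub (A B : Finset V) :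
    nbr G (A ∩ B) ⊆ (nbr G A ∩ B) ∪ ((nbr G A ∩ nbr G B) ∪ (A ∩ nbr G B)) := by
  intro v hv
  obtain ⟨h1, u, hu, huv⟩ := mem_nbr.1 hv
  rw [mem_inter] at hu h1
  simp only [mem_union, mem_inter, mem_nbr]
  by_cases hA : v ∈ A
  · have hB : v ∉ B := fun h => h1 ⟨hA, h⟩
    exact Or.inr (Or.inr ⟨hA, hB, u, hu.2, huv⟩)
  · by_cases hB : v ∈ B
    · exact Or.inl ⟨⟨hA, u, hu.1, huv⟩, hB⟩
    · exact Or.inr (Or.inl ⟨⟨hA, u, hu.1, huv⟩, hB, u, hu.2, huv⟩)

theorem nbr_union_sub (A B : Finset V) :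
    nbr G (A ∪ B) ⊆ (nbr G A ∩ nbr G B) ∪ ((nbr G A ∩ co G B) ∪ (co G A ∩ nbr G B)) := by
  intro v hv
  obtain ⟨h1, u, hu, huv⟩ := mem_nbr.1 hv
  rw [mem_union] at hu h1
  push Not at h1
  simp only [mem_union, mem_inter]
  have hA : v ∈ nbr G A ∨ v ∈ co G A := by
    rcases mem_three (G := G) A v with h | h
    · exact absurd h h1.1
    · exact h
  have hB : v ∈ nbr G B ∨ v ∈ co G B := by
    rcases mem_three (G := G) B v with h | h
    · exact absurd h h1.2
    · exact h
  rcases hA with hA | hA <;> rcases hB with hB | hB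
  · exact Or.inl ⟨hA, hB⟩
  · exact Or.inr (Or.inl ⟨hA, hB⟩)
  · exact Or.inr (Or.inr ⟨hA, hB⟩)
  · rcases hu with hu | hu
    · exact absurd huv ((mem_co.1 hA).2 u hu)
    · exact absurd huv ((mem_co.1 hB).2 u hu)

/-- Submodularity. -/
theorem submod (G : SimpleGraph V) (A B : Finset V) :
    (nbr G (A ∩ B)).card + (nbr G (A ∪ B)).card ≤ (nbr G A).card + (nbr G B).card ∧
      ((nbr G A ∩ B) ∪ ((nbr G A ∩ nbr G B) ∪ (A ∩ nbr G B))).card + (nbr G (A ∪ B)).card ≤
        (nbr G A).card + (nbr G B).card := by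
  have h1 := card_le_card (nbr_inter_sub (G := G) A B)
  have h2 := card_le_card (nbr_union_sub (G := G) A B)
  have h3 := card_split G (nbr G A) B
  have h4 := card_split G (nbr G B) A
  have h5 := card_union_le (nbr G A ∩ B) ((nbr G A ∩ nbr G B) ∪ (A ∩ nbr G B))
  have h6 := card_union_le (nbr G A ∩ nbr G B) (A ∩ nbr G B)
  have h7 := card_union_le (nbr G A ∩ nbr G B) ((nbr G A ∩ co G B) ∪ (co G A ∩ nbr G B))
  have h8 := card_union_le (nbr G A ∩ co G B) (co G A ∩ nbr G B)
  rw [inter_comm (nbr G B) A, inter_comm (nbr G B) (nbr G A), inter_comm (nbr G B) (co G A)] at h4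
  constructor <;> omega

/-- The properties of k-critically m-connected graphs that are used. -/
structure Hyp (G : SimpleGraph V) (m k : ℕ) : Prop where
  conn : ∀ F : Finset V, F.Nonempty → (co G F).Nonempty → m ≤ (nbr G F).card
  crit : ∀ S : Finset V, S.card ≤ k → ∃ F : Finset V, F.Nonempty ∧ S ⊆ nbr G F ∧
    (nbr G F).card = m ∧ F.card ≤ (co G F).card

open Classical in
/-- The small fragments whose neighbourhood contains `S`. -/
noncomputable def fam (G : SimpleGraph V) (m : ℕ) (S : Finset V) : Finset (Finset V) :=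
  univ.filter fun F => F.Nonempty ∧ S ⊆ nbr G F ∧ (nbr G F).card = m ∧ F.card ≤ (co G F).card

variable {m k : ℕ} {S : Finset V}

theorem mem_fam {F : Finset V} : F ∈ fam G m S ↔
    F.Nonempty ∧ S ⊆ nbr G F ∧ (nbr G F).card = m ∧ F.card ≤ (co G F).card := by
  simp [fam]

theorem fam_insert {F : Finset V} {w : V} :
    F ∈ fam G m (insert w S) ↔ F ∈ fam G m S ∧ w ∈ nbr G F := by
  rw [mem_fam, mem_fam, insert_subset_iff]
  tauto

theorem inter_aux (hH : Hyp G m k) {A B : Finset V} (hA : A ∈ fam G m S) (hB : B ∈ fam G m S)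
    (hAB : (A ∩ B).Nonempty) : A ∩ B ∈ fam G m S ∧ nbr G A ∩ nbr G B ⊆ nbr G (A ∩ B) := by
  rw [mem_fam] at hA hB
  obtain ⟨a1, a2, a3, a4⟩ := hA
  obtain ⟨b1, b2, b3, b4⟩ := hB
  obtain ⟨s1, s2⟩ := submod G A B
  have cA := card_three G A
  have cB := card_three G B
  have cU := card_three G (A ∪ B)
  have hcard := card_union_add_card_inter A B
  have hpos := hAB.card_pos
  have hcoA : (co G A).Nonempty := by
    rw [← card_pos]
    have := a1.card_pos
    omega
  have hco : (co G (A ∩ B)).Nonempty := hcoA.mono (co_anti inter_subset_left)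
  have h1 := hH.conn _ hAB hco
  have hcoU : (co G (A ∪ B)).Nonempty := by
    rw [← card_pos]
    omega
  have h2 := hH.conn (A ∪ B) (a1.mono subset_union_left) hcoU
  have h3 : nbr G (A ∩ B) = (nbr G A ∩ B) ∪ ((nbr G A ∩ nbr G B) ∪ (A ∩ nbr G B)) :=
    eq_of_subset_of_card_le (nbr_inter_sub A B) (by omega)
  have h4 : nbr G A ∩ nbr G B ⊆ nbr G (A ∩ B) := by
    rw [h3]
    exact subset_union_left.trans subset_union_right
  refine ⟨?_, h4⟩
  rw [mem_fam]
  refine ⟨hAB, (subset_inter a2 b2).trans h4, by omega, ?_⟩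
  have h5 : (A ∩ B).card ≤ A.card := card_le_card inter_subset_left
  have h6 : (co G A).card ≤ (co G (A ∩ B)).card := card_le_card (co_anti inter_subset_left)
  omega

open Classical in
/-- The minimal members. -/
noncomputable def ends (G : SimpleGraph V) (m : ℕ) (S : Finset V) : Finset (Finset V) :=
  (fam G m S).filter fun F => ∀ F' ∈ fam G m S, F' ⊆ F → F' = F

open Classical in
/-- The vertices of `F` for which `F` is the smallest member. -/
noncomputable def ker (G : SimpleGraph V) (m : ℕ) (S F : Finset V) : Finset V :=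
  F.filter fun z => ∀ F' ∈ fam G m S, z ∈ F' → F ⊆ F'

open Classical in
/-- The neighbours of `F` which have neighbours in `ker F` only. -/
noncomputable def pip (G : SimpleGraph V) (m : ℕ) (S F : Finset V) : Finset V :=
  (nbr G F).filter fun w => ∀ z ∈ F, G.Adj w z → z ∈ ker G m S F

theorem mem_ends {F : Finset V} :
    F ∈ ends G m S ↔ F ∈ fam G m S ∧ ∀ F' ∈ fam G m S, F' ⊆ F → F' = F := by
  simp [ends]

theorem mem_ker {F : Finset V} {z : V} :
    z ∈ ker G m S F ↔ z ∈ F ∧ ∀ F' ∈ fam G m S, z ∈ F' → F ⊆ F' := by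
  simp [ker]

theorem mem_pip {F : Finset V} {w : V} :
    w ∈ pip G m S F ↔ w ∈ nbr G F ∧ ∀ z ∈ F, G.Adj w z → z ∈ ker G m S F := by
  simp [pip]

theorem ker_ends (hH : Hyp G m k) {E : Finset V} (hE : E ∈ ends G m S) : ker G m S E = E := by
  rw [mem_ends] at hE
  ext z
  rw [mem_ker]
  refine ⟨fun h => h.1, fun hz => ⟨hz, fun F' hF' hzF' => ?_⟩⟩
  have h1 := (inter_aux hH hE.1 hF' ⟨z, mem_inter.2 ⟨hz, hzF'⟩⟩).1
  have h2 := hE.2 _ h1 inter_subset_left
  exact inter_eq_left.1 h2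

theorem ker_disj {F F' : Finset V} (hF : F ∈ fam G m S) (hF' : F' ∈ fam G m S) (hne : F ≠ F') :
    Disjoint (ker G m S F) (ker G m S F') := by
  rw [Finset.disjoint_left]
  intro z hz hz'
  rw [mem_ker] at hz hz'
  exact hne (Subset.antisymm (hz.2 F' hF' hz'.1) (hz'.2 F hF hz.1))

theorem exists_end {F : Finset V} (hF : F ∈ fam G m S) : ∃ E ∈ ends G m S, E ⊆ F := by
  classical
  obtain ⟨E, hE, hmin⟩ := exists_min_image ((fam G m S).filter fun F' => F' ⊆ F) card
    ⟨F, mem_filter.2 ⟨hF, Subset.refl F⟩⟩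
  rw [mem_filter] at hE
  refine ⟨E, mem_ends.2 ⟨hE.1, fun F' hF' hsub => ?_⟩, hE.2⟩
  exact eq_of_subset_of_card_le hsub (hmin F' (mem_filter.2 ⟨hF', hsub.trans hE.2⟩))

theorem pip_le (hH : Hyp G m k) {F : Finset V} (hF : F ∈ fam G m S) (hF' : F ∉ ends G m S) :
    (pip G m S F).card ≤ (ker G m S F).card := by
  obtain ⟨E, hE, hEF, hne⟩ : ∃ E ∈ fam G m S, E ⊆ F ∧ E ≠ F := by
    rw [mem_ends] at hF'
    push Not at hF'
    obtain ⟨E, h1, h2, h3⟩ := hF' hF
    exact ⟨E, h1, h2, h3⟩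
  have hf := mem_fam.1 hF
  have hsub : ker G m S F ⊆ F := fun z hz => (mem_ker.1 hz).1
  have hR : (F \ ker G m S F).Nonempty := by
    obtain ⟨z, hz⟩ := (mem_fam.1 hE).1
    refine ⟨z, mem_sdiff.2 ⟨hEF hz, fun h => hne ?_⟩⟩
    exact Subset.antisymm hEF ((mem_ker.1 h).2 E hE hz)
  have hcoF : (co G F).Nonempty := by
    rw [← card_pos]
    have := hf.1.card_pos
    omega
  have h1 := hH.conn _ hR (hcoF.mono (co_anti sdiff_subset))
  have h2 : nbr G (F \ ker G m S F) ⊆ ker G m S F ∪ (nbr G F \ pip G m S F) := by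
    intro y hy
    obtain ⟨hy1, z, hz, hzy⟩ := mem_nbr.1 hy
    rw [mem_sdiff] at hz
    rw [mem_union, mem_sdiff]
    by_cases hyF : y ∈ F
    · left
      by_contra hcon
      exact hy1 (mem_sdiff.2 ⟨hyF, hcon⟩)
    · right
      refine ⟨mem_nbr.2 ⟨hyF, z, hz.1, hzy⟩, fun h => ?_⟩
      exact hz.2 ((mem_pip.1 h).2 z hz.1 hzy.symm)
  have h3 := (card_le_card h2).trans (card_union_le _ _)
  have h4 : pip G m S F ⊆ nbr G F := fun w hw => (mem_pip.1 hw).1
  have h5 := card_sdiff_add_card_eq_card h4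
  omega

theorem ends_insert (hH : Hyp G m k) {F : Finset V} {w : V} (hF : F ∈ ends G m (insert w S)) :
    (F ∈ ends G m S ∧ w ∈ nbr G F) ∨ ((F ∈ fam G m S ∧ F ∉ ends G m S) ∧ w ∈ pip G m S F) := by
  rw [mem_ends, fam_insert] at hF
  by_cases h : F ∈ ends G m S
  · exact Or.inl ⟨h, hF.1.2⟩
  · refine Or.inr ⟨⟨hF.1.1, h⟩, mem_pip.2 ⟨hF.1.2, fun z hz hwz => ?_⟩⟩
    rw [mem_ker]
    refine ⟨hz, fun F' hF' hzF' => ?_⟩
    have h1 := (inter_aux hH hF.1.1 hF' ⟨z, mem_inter.2 ⟨hz, hzF'⟩⟩).1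
    have hwF : w ∉ F := (mem_nbr.1 hF.1.2).1
    have h2 : w ∈ nbr G (F ∩ F') :=
      mem_nbr.2 ⟨fun h => hwF (mem_inter.1 h).1, z, mem_inter.2 ⟨hz, hzF'⟩, hwz.symm⟩
    have h3 := hF.2 _ (fam_insert.2 ⟨h1, h2⟩) inter_subset_left
    exact inter_eq_left.1 h3


theorem sum_card_filter_comm' {α : Type*} (E : Finset α)
    (f : α → Finset V) : ∑ w : V, (E.filter fun F => w ∈ f F).card = ∑ F ∈ E, (f F).card := by
  classical
  simp only [card_filter]
  rw [sum_comm]
  refine sum_congr rfl fun F _ => ?_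
  rw [← card_filter, filter_mem_eq_inter, univ_inter]

/-- Counting the minimal members after adding one vertex. -/
theorem sum_ends (hH : Hyp G m k) (S : Finset V) :
    ∑ w : V, (ends G m (insert w S)).card + (ends G m S).card ≤
      m * (ends G m S).card + Fintype.card V := by
  classical
  set E := ends G m S with hE
  set R := (fam G m S).filter fun F => F ∉ ends G m S with hR
  have hR' : ∀ F ∈ R, F ∈ fam G m S ∧ F ∉ ends G m S := fun F hF => mem_filter.1 hF
  have hEf : ∀ F ∈ E, F ∈ fam G m S := fun F hF => (mem_ends.1 hF).1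
  have h1 : ∀ w : V, (ends G m (insert w S)).card ≤
      (E.filter fun F => w ∈ nbr G F).card + (R.filter fun F => w ∈ pip G m S F).card := by
    intro w
    refine le_trans (card_le_card ?_) (card_union_le _ _)
    intro F hF
    rw [mem_union, mem_filter, mem_filter, hR, mem_filter]
    rcases ends_insert hH hF with h | h
    · exact Or.inl h
    · exact Or.inr h
  have h2 : ∑ w : V, (E.filter fun F => w ∈ nbr G F).card = ∑ F ∈ E, (nbr G F).card := by
    rw [sum_card_filter_comm' E (fun F => nbr G F)]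
  have h3 : ∑ w : V, (R.filter fun F => w ∈ pip G m S F).card = ∑ F ∈ R, (pip G m S F).card := by
    rw [sum_card_filter_comm' R (fun F => pip G m S F)]
  have h4 : ∑ F ∈ E, (nbr G F).card = m * E.card := by
    rw [sum_congr rfl (fun F hF => (mem_fam.1 (hEf F hF)).2.2.1), sum_const, smul_eq_mul, mul_comm]
  have h5 : ∑ F ∈ R, (pip G m S F).card ≤ ∑ F ∈ R, (ker G m S F).card :=
    sum_le_sum fun F hF => pip_le hH (hR' F hF).1 (hR' F hF).2
  have h6 : E.card ≤ ∑ F ∈ E, (ker G m S F).card := by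
    rw [card_eq_sum_ones]
    refine sum_le_sum fun F hF => ?_
    rw [ker_ends hH hF]
    exact (mem_fam.1 (hEf F hF)).1.card_pos
  have h7 : ∑ F ∈ E, (ker G m S F).card + ∑ F ∈ R, (ker G m S F).card =
      ∑ F ∈ fam G m S, (ker G m S F).card := by
    rw [← sum_filter_add_sum_filter_not (fam G m S) (fun F => F ∈ ends G m S)]
    congr 1
    apply sum_congr _ fun _ _ => rfl
    ext F
    rw [mem_filter]
    exact ⟨fun h => ⟨hEf F h, h⟩, fun h => h.2⟩
  have h8 : ∑ F ∈ fam G m S, (ker G m S F).card ≤ Fintype.card V := by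
    rw [← card_biUnion fun F hF F' hF' hne => ker_disj hF hF' hne]
    exact card_le_univ _
  have h9 : ∑ w : V, (ends G m (insert w S)).card ≤
      ∑ w : V, ((E.filter fun F => w ∈ nbr G F).card + (R.filter fun F => w ∈ pip G m S F).card) :=
    sum_le_sum fun w _ => h1 w
  rw [sum_add_distrib, h2, h3, h4] at h9
  omega

/-- One vertex halves the number of minimal members. -/
theorem halve (hH : Hyp G m k) (hv : 2 * m + 2 ≤ Fintype.card V) (S : Finset V)
    (hM : 0 < (ends G m S).card) :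
    ∃ w : V, 2 * (ends G m (insert w S)).card ≤ (ends G m S).card + 1 := by
  have hne : (univ : Finset V).Nonempty := by
    rw [← card_pos, card_univ]
    omega
  obtain ⟨w, -, hw⟩ := exists_min_image univ (fun w : V => (ends G m (insert w S)).card) hne
  refine ⟨w, ?_⟩
  have h1 := sum_ends hH S
  have h2 : Fintype.card V * (ends G m (insert w S)).card ≤
      ∑ w : V, (ends G m (insert w S)).card := by
    have := card_nsmul_le_sum univ (fun w : V => (ends G m (insert w S)).card) _ hw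
    rwa [card_univ, smul_eq_mul] at this
  by_contra hcon
  push Not at hcon
  obtain ⟨e, he⟩ : ∃ e, (ends G m (insert w S)).card = e + 1 :=
    ⟨(ends G m (insert w S)).card - 1, by omega⟩
  rw [he] at h2 hcon
  have h3 : (ends G m S).card ≤ 2 * e := by omega
  have h4 : Fintype.card V * (e + 1) = Fintype.card V * e + Fintype.card V := by ring
  have h5 : (2 * m + 2) * e ≤ Fintype.card V * e := Nat.mul_le_mul_right _ hv
  have h6 : m * (ends G m S).card ≤ m * (2 * e) := Nat.mul_le_mul_left _ h3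
  nlinarith

theorem first (hH : Hyp G m k) : ∃ w : V, (ends G m (insert w ∅)).card ≤ m := by
  obtain ⟨F, h1, h2, h3, h4⟩ := hH.crit ∅ (by simp)
  obtain ⟨E, hE, -⟩ := exists_end (G := G) (m := m) (S := ∅) (F := F) (mem_fam.2 ⟨h1, h2, h3, h4⟩)
  have hE' := mem_ends.1 hE
  obtain ⟨w, hw⟩ := (mem_fam.1 hE'.1).1
  refine ⟨w, ?_⟩
  have hdis : ∀ F ∈ ends G m (insert w ∅), (F ∩ nbr G E).Nonempty := by
    intro F hF
    have hF' := (mem_ends.1 hF).1
    rw [fam_insert] at hF'
    obtain ⟨hwF, z, hz, hzw⟩ := mem_nbr.1 hF'.2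
    refine ⟨z, mem_inter.2 ⟨hz, mem_nbr.2 ⟨fun hzE => ?_, w, hw, hzw.symm⟩⟩⟩
    have h5 := (inter_aux hH hE'.1 hF'.1 ⟨z, mem_inter.2 ⟨hzE, hz⟩⟩).1
    have h6 := hE'.2 _ h5 inter_subset_left
    exact hwF (inter_eq_left.1 h6 hw)
  have hker : ∀ F ∈ ends G m (insert w ∅), ker G m (insert w ∅) F = F := fun F hF =>
    ker_ends hH hF
  have h7 : (ends G m (insert w ∅)).card ≤ ∑ F ∈ ends G m (insert w ∅), (F ∩ nbr G E).card := by
    rw [card_eq_sum_ones]
    exact sum_le_sum fun F hF => (hdis F hF).card_pos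
  refine h7.trans ?_
  rw [← card_biUnion]
  · rw [← (mem_fam.1 hE'.1).2.2.1]
    apply card_le_card
    intro z hz
    obtain ⟨F, -, hF⟩ := mem_biUnion.1 hz
    exact (mem_inter.1 hF).2
  · intro F hF F' hF' hne
    have h8 := ker_disj (mem_ends.1 hF).1 (mem_ends.1 hF').1 hne
    rw [hker F hF, hker F' hF'] at h8
    exact h8.mono inter_subset_left inter_subset_left

theorem iter (hH : Hyp G m k) (hv : 2 * m + 2 ≤ Fintype.card V) (j : ℕ) (hj : j + 1 ≤ k) :
    ∃ S : Finset V, S.card ≤ j + 1 ∧ 2 ^ j * (ends G m S).card + 1 ≤ m + 2 ^ j := by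
  induction j with
  | zero =>
    obtain ⟨w, hw⟩ := first hH
    exact ⟨insert w ∅, by simp, by simpa using hw⟩
  | succ j ih =>
    obtain ⟨S, hS, hM⟩ := ih (by omega)
    have hpos : 0 < (ends G m S).card := by
      obtain ⟨F, h1, h2, h3, h4⟩ := hH.crit S (by omega)
      obtain ⟨E, hE, -⟩ := exists_end (G := G) (m := m) (S := S) (F := F)
        (mem_fam.2 ⟨h1, h2, h3, h4⟩)
      exact card_pos.2 ⟨E, hE⟩
    obtain ⟨w, hw⟩ := halve hH hv S hpos
    refine ⟨insert w S, (card_insert_le _ _).trans (by omega), ?_⟩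
    have h1 : 2 ^ (j + 1) * (ends G m (insert w S)).card =
        2 ^ j * (2 * (ends G m (insert w S)).card) := by ring
    have h2 : 2 ^ j * (2 * (ends G m (insert w S)).card) ≤ 2 ^ j * ((ends G m S).card + 1) :=
      Nat.mul_le_mul_left _ hw
    have h3 : 2 ^ (j + 1) = 2 * 2 ^ j := by ring
    rw [h1]
    have h4 : 2 ^ j * ((ends G m S).card + 1) = 2 ^ j * (ends G m S).card + 2 ^ j := by ring
    omega

/-- The upper bound for `k`. -/
theorem upper (hH : Hyp G m k) (hv : 2 * m + 2 ≤ Fintype.card V) (j : ℕ) (hm : m ≤ 2 ^ j) :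
    k ≤ j + 1 := by
  by_contra hcon
  push Not at hcon
  obtain ⟨S, hS, hM⟩ := iter hH hv j (by omega)
  have h1 : (ends G m S).card ≤ 1 := by
    by_contra h
    push Not at h
    have : 2 ^ j * 2 ≤ 2 ^ j * (ends G m S).card := Nat.mul_le_mul_left _ h
    omega
  obtain ⟨F, f1, f2, f3, f4⟩ := hH.crit S (by omega)
  obtain ⟨E, hE, -⟩ := exists_end (G := G) (m := m) (S := S) (F := F)
    (mem_fam.2 ⟨f1, f2, f3, f4⟩)
  obtain ⟨w, hw⟩ := (mem_fam.1 (mem_ends.1 hE).1).1
  obtain ⟨F', g1, g2, g3, g4⟩ := hH.crit (insert w S) ((card_insert_le _ _).trans (by omega))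
  have hF' : F' ∈ fam G m (insert w S) := mem_fam.2 ⟨g1, g2, g3, g4⟩
  rw [fam_insert] at hF'
  obtain ⟨E', hE', hsub⟩ := exists_end hF'.1
  have : E' = E := (card_le_one.1 h1) E' hE' E hE
  subst this
  exact (mem_nbr.1 hF'.2).1 (hsub hw)

end Pool.Agent.CritLog
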