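import Pool.Agent.CritLog.Up
import Pool.Agent.CritLog.Blocks
import Pool.Agent.CritLog.Cov

/-! # The value k(n) is asymptotic to log₂ n -/

namespace Pool.Agent.CritLog

open SimpleGraph Pool.Agent.CritDiam Filter Topology

/-- `(n,k)`-graphs of diameter three. -/
theorem main (k : ℕ) (hk : 2 ≤ k) (n : ℕ) (hn : 12 * (k + 1) ^ 4 * 2 ^ k ≤ n) :
    ∃ (V : Type) (_ : Finite V) (G : SimpleGraph V), IsNK n k G ∧ G.diam = 3 := by
  obtain ⟨𝓑', h1', h2', h3'⟩ := exists_cover k (by omega)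
  obtain ⟨ρ, hρ⟩ : ∃ ρ, ρ = k ^ 2 + k := ⟨_, rfl⟩
  obtain ⟨𝓑, h1, h2, h3⟩ : ∃ 𝓑 : Finset (Finset (Fin (2 * ρ + 1))), (∀ I ∈ 𝓑, I.card = ρ) ∧
      (∀ H : Finset (Fin (2 * ρ + 1)), H.card ≤ k → ∃ I ∈ 𝓑, H ⊆ I) ∧
      𝓑.card ≤ 2 ^ (k + 1) * (k + 1) ^ 2 := by
    subst hρ
    exact ⟨𝓑', h1', h2', h3'⟩
  have hcn : nb 𝓑 = 𝓑.card := by
    unfold nb
    rw [Nat.card_eq_fintype_card, Fintype.card_coe]
  set c := nb 𝓑 with hc
  obtain ⟨m, hm⟩ : ∃ m, m = 2 * ρ := ⟨_, rfl⟩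
  set e := (n - 4 * c) % m with he
  set t := (n - 4 * c) / m with ht
  have hm0 : 0 < m := by
    have : 0 < ρ := by rw [hρ]; positivity
    omega
  have he1 : e < m := Nat.mod_lt _ hm0
  have hdiv : m * t + e = n - 4 * c := Nat.div_add_mod _ _
  have hc4 : c ≤ 2 * 2 ^ k * (k + 1) ^ 2 := by
    rw [hcn]
    refine h3.trans (le_of_eq ?_)
    ring
  have hkk : k < 2 ^ k := Nat.lt_two_pow_self
  have hbig : (3 * c + m) * m + 4 * c ≤ n := by
    refine le_trans ?_ hn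
    have e1 : (3 * c + m) * m + 4 * c ≤ (3 * (2 * 2 ^ k * (k + 1) ^ 2) + m) * m +
        4 * (2 * 2 ^ k * (k + 1) ^ 2) := by gcongr
    refine e1.trans ?_
    have hmm : m = 2 * (k * (k + 1)) := by rw [hm, hρ]; ring
    rw [hmm]
    generalize 2 ^ k = p at hkk ⊢
    have e2 : k ^ 2 ≤ k * p := by nlinarith
    have e3 : k ^ 2 * (k + 1) ^ 2 ≤ k * p * (k + 1) ^ 2 := Nat.mul_le_mul_right _ e2
    have e4 : (3 * (2 * p * (k + 1) ^ 2) + 2 * (k * (k + 1))) * (2 * (k * (k + 1))) +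
        4 * (2 * p * (k + 1) ^ 2) =
        12 * p * k * (k + 1) ^ 3 + 4 * (k ^ 2 * (k + 1) ^ 2) + 8 * p * (k + 1) ^ 2 := by ring
    have e5 : 12 * (k + 1) ^ 4 * p = 12 * p * k * (k + 1) ^ 3 + 12 * p * (k + 1) ^ 3 := by ring
    have e6 : 12 * p * (k + 1) ^ 3 = 4 * (k * p * (k + 1) ^ 2) + 8 * p * (k + 1) ^ 2 +
        (8 * (k * p * (k + 1) ^ 2) + 4 * p * (k + 1) ^ 2) := by ring
    rw [e4, e5, e6]
    omega
  have ht1 : 3 * c + e ≤ t := by
    have h4 : 3 * c + m ≤ t := by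
      rw [ht, Nat.le_div_iff_mul_le hm0]
      omega
    omega
  refine ⟨Vtx 𝓑 t (c + 1 + e) (c + 1), inferInstance, gr 𝓑 t (c + 1 + e) (c + 1), ?_,
    diam_eq rfl h1 h2 hk (by omega) (by omega)⟩
  have h := isNK rfl h1 h2 t e ht1
  have hn' : 4 * nb 𝓑 + e + 2 * (ρ * t) = n := by
    have h5 : 2 * (ρ * t) = m * t := by rw [hm]; ring
    have h6 : 4 * c ≤ n := by omega
    rw [h5]
    omega
  rw [hn'] at h
  exact h

/-- Every non-complete `(n,k)`-graph has diameter two. -/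
def AllTwo (n k : ℕ) : Prop :=
  ∀ (V : Type) [Finite V] (G : SimpleGraph V), G ≠ ⊤ → IsNK n k G → G.diam = 2

/-- The least `k` with `1 ≤ k ≤ n` such that every non-complete `(n,k)`-graph has diameter two. -/
noncomputable def kmin (n : ℕ) : ℕ := sInf {k | 1 ≤ k ∧ k ≤ n ∧ AllTwo n k}

theorem clog_le {n : ℕ} (hn : 4 ≤ n) : Nat.clog 2 n + 2 ≤ n := by
  obtain ⟨m, rfl⟩ : ∃ m, n = m + 4 := ⟨n - 4, by omega⟩
  have h1 : m + 4 ≤ 2 ^ (m + 2) := by
    induction m with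
    | zero => norm_num
    | succ m ih =>
      have h2 := ih (by omega)
      have h3 : 2 ^ (m + 1 + 2) = 2 * 2 ^ (m + 2) := by ring
      omega
  have h2 := (Nat.clog_le_iff_le_pow (by norm_num)).2 h1
  omega

theorem mem_set {n : ℕ} (hn : 4 ≤ n) : Nat.clog 2 n + 2 ∈ {k | 1 ≤ k ∧ k ≤ n ∧ AllTwo n k} :=
  ⟨by omega, clog_le hn, fun V _ G hG h => upper_bound h hG le_rfl⟩

theorem kmin_le {n : ℕ} (hn : 4 ≤ n) : kmin n ≤ Nat.clog 2 n + 2 :=
  Nat.sInf_le (mem_set hn)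

theorem kmin_mem {n : ℕ} (hn : 4 ≤ n) : 1 ≤ kmin n ∧ kmin n ≤ n ∧ AllTwo n (kmin n) :=
  Nat.sInf_mem (s := {k | 1 ≤ k ∧ k ≤ n ∧ AllTwo n k}) ⟨_, mem_set hn⟩

theorem lt_kmin {k n : ℕ} (hk : 2 ≤ k) (hn : 12 * (k + 1) ^ 4 * 2 ^ k ≤ n) : k < kmin n := by
  have hn4 : 4 ≤ n := by
    refine le_trans ?_ hn
    have h1 : 1 ≤ 2 ^ k := Nat.one_le_two_pow
    have h2 : 1 ≤ (k + 1) ^ 4 := Nat.one_le_pow _ _ (by omega)
    nlinarith
  obtain ⟨-, -, h3⟩ := kmin_mem hn4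
  by_contra hcon
  push Not at hcon
  obtain ⟨V, _, G, hG, hd⟩ := main k hk n hn
  have hne : G ≠ ⊤ := by
    rintro rfl
    have hV : Nontrivial V := nontrivial_of_diam_ne_zero (G := (⊤ : SimpleGraph V)) (by omega)
    rw [diam_top] at hd
    omega
  have h4 := h3 V G hne fun X hX => hG X (hX.trans hcon)
  omega

/-- The lower bound. -/
theorem le_kmin {n : ℕ} (hn : 4 ≤ n) :
    Real.logb 2 n - 4 * Real.logb 2 (Real.logb 2 n + 1) - 4 ≤ kmin n := by
  set x := Real.logb 2 n with hx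
  have hn0 : (4 : ℝ) ≤ n := by exact_mod_cast hn
  have hx2 : 2 ≤ x := by
    rw [hx, Real.le_logb_iff_rpow_le (by norm_num) (by linarith)]
    norm_num
    linarith
  have hxn : (2 : ℝ) ^ x = n := Real.rpow_logb (by norm_num) (by norm_num) (by linarith)
  set y := Real.logb 2 (x + 1) with hy
  have hxy : (2 : ℝ) ^ y = x + 1 := Real.rpow_logb (by norm_num) (by norm_num) (by linarith)
  have hy1 : 1 ≤ y := by
    rw [hy, Real.le_logb_iff_rpow_le (by norm_num) (by linarith)]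
    norm_num
    linarith
  obtain ⟨hk1, -, -⟩ := kmin_mem hn
  have hk1' : (1 : ℝ) ≤ kmin n := by exact_mod_cast hk1
  by_cases hz : x - 4 * y - 4 < 1
  · linarith
  push Not at hz
  -- the number `k`
  set k := ⌊x - 4 * y - 4⌋₊ with hk
  have hk0 : (k : ℝ) ≤ x - 4 * y - 4 := Nat.floor_le (by linarith)
  have hk3 : x - 4 * y - 4 < k + 1 := Nat.lt_floor_add_one _
  have hbound : ∀ j : ℕ, (j : ℝ) ≤ x - 4 * y - 4 → 12 * (j + 1) ^ 4 * 2 ^ j ≤ n := by
    intro j hj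
    have h1 : (12 * (j + 1) ^ 4 * 2 ^ j : ℝ) ≤ n := by
      have h2 : (j : ℝ) + 1 ≤ x + 1 := by linarith
      have h3 : ((j : ℝ) + 1) ^ 4 ≤ (x + 1) ^ 4 := pow_le_pow_left₀ (by positivity) h2 4
      have h4 : (2 : ℝ) ^ j ≤ 2 ^ (x - 4 * y - 4) := by
        rw [← Real.rpow_natCast]
        exact Real.rpow_le_rpow_of_exponent_le (by norm_num) hj
      have h5 : (2 : ℝ) ^ (x - 4 * y - 4) * (16 * (x + 1) ^ 4) = n := by
        have h6 : (x + 1) ^ 4 = (2 : ℝ) ^ (4 * y) := by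
          rw [← hxy, ← Real.rpow_natCast, ← Real.rpow_mul (by norm_num)]
          congr 1
          push_cast
          ring
        have h7 : (16 : ℝ) = (2 : ℝ) ^ (4 : ℝ) := by
          rw [show (4 : ℝ) = ((4 : ℕ) : ℝ) by norm_num, Real.rpow_natCast]
          norm_num
        rw [h6, h7, ← Real.rpow_add (by norm_num), ← Real.rpow_add (by norm_num), ← hxn]
        congr 1
        ring
      calc (12 * (j + 1) ^ 4 * 2 ^ j : ℝ) ≤ 16 * (x + 1) ^ 4 * 2 ^ (x - 4 * y - 4) := by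
            gcongr
            norm_num
        _ = n := by rw [← h5]; ring
    exact_mod_cast h1
  by_cases hk2 : 2 ≤ k
  · have h1 := lt_kmin hk2 (hbound k hk0)
    have h2 : ((k : ℝ) + 1) ≤ kmin n := by exact_mod_cast h1
    linarith
  · -- here `k = 1`, and `n` is large
    have hk2' : (k : ℝ) ≤ 1 := by
      have : k ≤ 1 := by omega
      exact_mod_cast this
    have hx9 : 9 ≤ x := by linarith
    have hy3 : 3 ≤ y := by
      rw [hy, Real.le_logb_iff_rpow_le (by norm_num) (by linarith)]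
      have : (2 : ℝ) ^ (3 : ℝ) = 8 := by
        rw [show (3 : ℝ) = ((3 : ℕ) : ℝ) by norm_num, Real.rpow_natCast]
        norm_num
      rw [this]
      linarith
    have hx12 : 12 ≤ x := by linarith
    have h4 : (4096 : ℝ) ≤ n := by
      rw [← hxn]
      calc (4096 : ℝ) = (2 : ℝ) ^ (12 : ℝ) := by
            rw [show (12 : ℝ) = ((12 : ℕ) : ℝ) by norm_num, Real.rpow_natCast]
            norm_num
        _ ≤ 2 ^ x := Real.rpow_le_rpow_of_exponent_le (by norm_num) hx12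
    have h5 : 4096 ≤ n := by exact_mod_cast h4
    have h6 := lt_kmin (k := 2) le_rfl (n := n) (by norm_num; omega)
    have h7 : (3 : ℝ) ≤ kmin n := by exact_mod_cast h6
    linarith

theorem kmin_tendsto : Tendsto (fun n : ℕ => (kmin n : ℝ) / Real.logb 2 n) atTop (𝓝 1) := by
  have hlog : Tendsto (fun n : ℕ => Real.logb 2 (n : ℝ)) atTop atTop :=
    (Real.tendsto_logb_atTop (by norm_num)).comp tendsto_natCast_atTop_atTop
  have hinv : Tendsto (fun n : ℕ => (Real.logb 2 (n : ℝ))⁻¹) atTop (𝓝 0) :=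
    tendsto_inv_atTop_zero.comp hlog
  have hup : Tendsto (fun n : ℕ => 1 + 3 * (Real.logb 2 (n : ℝ))⁻¹) atTop (𝓝 1) := by
    have := (hinv.const_mul 3).const_add 1
    simpa using this
  have hll : Tendsto (fun x : ℝ => Real.logb 2 (x + 1) / x) atTop (𝓝 0) := by
    have h1 : Tendsto (fun x : ℝ => Real.log (x + 1) / (x + 1)) atTop (𝓝 0) := by
      have h2 : Tendsto (fun x : ℝ => Real.log x / x) atTop (𝓝 0) := by
        have := Real.isLittleO_log_id_atTop.tendsto_div_nhds_zero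
        exact this
      exact h2.comp (tendsto_atTop_add_const_right atTop 1 tendsto_id)
    have h3 : Tendsto (fun x : ℝ => (x + 1) / x) atTop (𝓝 1) := by
      have h4 : Tendsto (fun x : ℝ => 1 + x⁻¹) atTop (𝓝 (1 + 0)) :=
        tendsto_inv_atTop_zero.const_add 1
      rw [add_zero] at h4
      refine h4.congr' ?_
      filter_upwards [eventually_gt_atTop 0] with x hx
      field_simp
    have h5 := (h1.mul h3).div_const (Real.log 2)
    rw [zero_mul, zero_div] at h5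
    refine h5.congr' ?_
    filter_upwards [eventually_gt_atTop 0] with x hx
    unfold Real.logb
    have : x + 1 ≠ 0 := by linarith
    field_simp
  have hlo : Tendsto (fun n : ℕ => 1 - 4 * (Real.logb 2 (Real.logb 2 (n : ℝ) + 1) /
      Real.logb 2 (n : ℝ)) - 4 * (Real.logb 2 (n : ℝ))⁻¹) atTop (𝓝 1) := by
    have := (((hll.comp hlog).const_mul 4).const_sub 1).sub (hinv.const_mul 4)
    simpa using this
  refine tendsto_of_tendsto_of_tendsto_of_le_of_le' hlo hup ?_ ?_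
  · filter_upwards [eventually_ge_atTop 4] with n hn
    have hpos : 0 < Real.logb 2 (n : ℝ) :=
      Real.logb_pos (by norm_num) (by exact_mod_cast (by omega : 1 < n))
    rw [le_div_iff₀ hpos]
    have h1 := le_kmin hn
    have h2 : (1 - 4 * (Real.logb 2 (Real.logb 2 (n : ℝ) + 1) / Real.logb 2 (n : ℝ)) -
        4 * (Real.logb 2 (n : ℝ))⁻¹) * Real.logb 2 (n : ℝ) =
        Real.logb 2 (n : ℝ) - 4 * Real.logb 2 (Real.logb 2 (n : ℝ) + 1) - 4 := by
      field_simp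
    rw [h2]
    exact h1
  · filter_upwards [eventually_ge_atTop 4] with n hn
    have hpos : 0 < Real.logb 2 (n : ℝ) :=
      Real.logb_pos (by norm_num) (by exact_mod_cast (by omega : 1 < n))
    rw [div_le_iff₀ hpos]
    have h1 : (kmin n : ℝ) ≤ Nat.clog 2 n + 2 := by exact_mod_cast kmin_le hn
    have h2 : (Nat.clog 2 n : ℝ) ≤ Real.logb 2 n + 1 := by
      have h3 : (Nat.clog 2 n : ℝ) = ⌈Real.logb 2 n⌉₊ := by
        rw [← Real.natCeil_logb_natCast]
        norm_num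
      rw [h3]
      exact (Nat.ceil_lt_add_one hpos.le).le
    have h4 : (1 + 3 * (Real.logb 2 (n : ℝ))⁻¹) * Real.logb 2 (n : ℝ) =
        Real.logb 2 (n : ℝ) + 3 := by
      field_simp
    rw [h4]
    linarith

end Pool.Agent.CritLog
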