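import Pool.Agent.CritLog.Frag

/-! # (n,k)-graphs with k at least log₂ n + 2 have diameter two -/

set_option linter.unusedSectionVars false

namespace Pool.Agent.CritLog

open SimpleGraph Finset Pool.Agent.CritDiam

variable {V : Type} [Fintype V] [DecidableEq V] {G : SimpleGraph V} {n k : ℕ}

theorem disc_le (h : IsNK n k G) {S : Set V} (hS : Disconnects G S) : n ≤ S.ncard := by
  have h1 := h ∅ (by simp)
  rw [Set.ncard_empty, add_zero] at h1
  set S' : Set ↑(∅ : Set V)ᶜ := {w | w.1 ∈ S} with hS'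
  have himg : Subtype.val '' S' = S := by
    ext w
    constructor
    · rintro ⟨w', hw', rfl⟩
      exact hw'
    · intro hw
      exact ⟨⟨w, by simp⟩, hw, rfl⟩
  have hd : Disconnects (G.induce (∅ : Set V)ᶜ) S' := by
    rw [disconnects_induce_iff, himg, Set.empty_union]
    exact hS
  have hne := ne_top_of_disconnects hd
  unfold mu at h1
  rw [if_neg hne] at h1
  rw [← h1]
  refine Nat.sInf_le ⟨S', hd, ?_⟩
  rw [← himg]
  exact (Set.ncard_image_of_injective _ Subtype.val_injective).symm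

theorem disc_pair {H : SimpleGraph V} {x y : V} (hne : x ≠ y) (h : ¬ H.Adj x y) :
    Disconnects H ({x, y} : Set V)ᶜ := by
  rw [disconnects_iff]
  refine ⟨{x}, ⟨x, by simp, rfl⟩, ⟨y, by simp, fun h1 => hne h1.symm⟩, ?_⟩
  intro u v hu hv huv
  rw [Set.mem_compl_iff, not_not] at hu hv
  rcases hu with rfl | hu <;> rcases hv with rfl | hv
  · exact absurd huv (H.loopless.irrefl _)
  · rw [Set.mem_singleton_iff] at hv
    subst hv
    exact absurd huv h
  · rw [Set.mem_singleton_iff] at hu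
    subst hu
    exact absurd huv.symm h
  · rw [Set.mem_singleton_iff] at hu hv
    subst hu
    subst hv
    exact absurd huv (H.loopless.irrefl _)

theorem exists_nonadj {W : Type} {H : SimpleGraph W} (h : H ≠ ⊤) : ∃ x y, x ≠ y ∧ ¬ H.Adj x y := by
  by_contra hcon
  push Not at hcon
  apply h
  ext x y
  rw [top_adj]
  exact ⟨fun h1 => h1.ne, hcon x y⟩

theorem card_ge (h : IsNK n k G) (hG : G ≠ ⊤) : n + 2 ≤ Fintype.card V := by
  obtain ⟨x, y, hne, hxy⟩ := exists_nonadj hG
  have h1 := disc_le h (disc_pair hne hxy)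
  have h2 : ({x, y} : Set V).ncard + ({x, y} : Set V)ᶜ.ncard = Nat.card V :=
    Set.ncard_add_ncard_compl _
  rw [Set.ncard_pair hne, Nat.card_eq_fintype_card] at h2
  omega

/-- Every small set lies in a minimum separator. -/
theorem exists_sep' (h : IsNK n k G) (hG : G ≠ ⊤) (X : Set V) (hX : X.ncard ≤ k) :
    ∃ T : Set V, X ⊆ T ∧ Disconnects G T ∧ T.ncard = n := by
  classical
  have h1 := h X hX
  have h2 := card_ge h hG
  have hXc : X.ncard + Xᶜ.ncard = Nat.card V := Set.ncard_add_ncard_compl _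
  rw [Nat.card_eq_fintype_card] at hXc
  by_cases htop : G.induce Xᶜ = ⊤
  · exfalso
    unfold mu at h1
    rw [if_pos htop, Nat.card_coe_set_eq] at h1
    omega
  · unfold mu at h1
    rw [if_neg htop] at h1
    obtain ⟨x, y, hne, hxy⟩ := exists_nonadj htop
    have hne' : {s : ℕ | ∃ S : Set ↑Xᶜ, Disconnects (G.induce Xᶜ) S ∧ S.ncard = s}.Nonempty :=
      ⟨_, _, disc_pair hne hxy, rfl⟩
    obtain ⟨S, hS, hSc⟩ := Nat.sInf_mem hne'
    rw [disconnects_induce_iff] at hS
    refine ⟨X ∪ Subtype.val '' S, Set.subset_union_left, hS, ?_⟩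
    rw [Set.ncard_union_eq, Set.ncard_image_of_injective _ Subtype.val_injective]
    · omega
    · rw [Set.disjoint_left]
      rintro v hv ⟨w, -, rfl⟩
      exact w.2 hv

theorem disc_of_frag {F : Finset V} (h1 : F.Nonempty) (h2 : (co G F).Nonempty) :
    Disconnects G (nbr G F : Set V) := by
  rw [disconnects_iff]
  obtain ⟨x, hx⟩ := h1
  obtain ⟨y, hy⟩ := h2
  rw [mem_co] at hy
  refine ⟨F, ⟨x, fun h => (mem_nbr.1 (mem_coe.1 h)).1 hx, hx⟩, ⟨y, fun h => ?_, hy.1⟩, ?_⟩
  · obtain ⟨-, u, hu, huy⟩ := mem_nbr.1 (mem_coe.1 h)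
    exact hy.2 u hu huy
  · intro u v hu hv huv
    rw [mem_coe, mem_nbr] at hu hv
    push Not at hu hv
    constructor
    · intro hu'
      by_contra hv'
      exact hv hv' u hu' huv
    · intro hv'
      by_contra hu'
      exact hu hu' v hv' huv.symm

theorem hyp_of (h : IsNK n k G) (hG : G ≠ ⊤) : Hyp G n k := by
  classical
  have hconn : ∀ F : Finset V, F.Nonempty → (co G F).Nonempty → n ≤ (nbr G F).card := by
    intro F h1 h2
    have h3 := disc_le h (disc_of_frag h1 h2)
    rwa [Set.ncard_coe_finset] at h3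
  refine ⟨hconn, ?_⟩
  intro S hS
  obtain ⟨T, hST, hT, hTn⟩ := exists_sep' h hG (S : Set V) (by rwa [Set.ncard_coe_finset])
  rw [disconnects_iff] at hT
  obtain ⟨F, ⟨u, hu, huF⟩, ⟨v, hv, hvF⟩, hF⟩ := hT
  -- one side of the separator
  set Tf : Finset V := univ.filter (fun a => a ∈ T) with hTf
  have hmemT : ∀ c, c ∈ Tf ↔ c ∈ T := fun c => by rw [hTf, mem_filter]; simp
  have hTn' : Tf.card = n := by
    rw [← hTn, ← Set.ncard_coe_finset]
    congr 1
    ext c
    rw [mem_coe, hmemT]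
  have key : ∀ (P : V → Prop) (A B : Finset V), (∀ c, c ∈ A ↔ c ∉ T ∧ P c) →
      (∀ c, c ∈ B ↔ c ∉ T ∧ ¬ P c) → A.Nonempty → B.Nonempty →
      (∀ a b, a ∉ T → b ∉ T → G.Adj a b → (P a ↔ P b)) → nbr G A = Tf ∧ co G A = B := by
    intro P A B hmemA hmemB hA ⟨b, hb⟩ hP3
    rw [hmemB] at hb
    have h1 : nbr G A ⊆ Tf := by
      intro c hc
      obtain ⟨hc1, d, hd, hdc⟩ := mem_nbr.1 hc
      rw [hmemA] at hc1 hd
      rw [hmemT]
      by_contra hcT
      exact hc1 ⟨hcT, (hP3 d c hd.1 hcT hdc).1 hd.2⟩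
    have h2 : b ∈ co G A := by
      rw [mem_co]
      refine ⟨fun h => hb.2 ((hmemA b).1 h).2, fun d hd hdb => ?_⟩
      rw [hmemA] at hd
      exact hb.2 ((hP3 d b hd.1 hb.1 hdb).1 hd.2)
    have h3 := hconn A hA ⟨b, h2⟩
    have h5 : nbr G A = Tf := eq_of_subset_of_card_le h1 (by omega)
    refine ⟨h5, ?_⟩
    ext c
    rw [hmemB]
    constructor
    · intro hc
      have h6 := mem_co.1 hc
      have h7 : c ∉ T := by
        intro hcT
        have : c ∈ nbr G A := by rw [h5, hmemT]; exact hcT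
        obtain ⟨-, d, hd, hdc⟩ := mem_nbr.1 this
        exact h6.2 d hd hdc
      exact ⟨h7, fun hc' => h6.1 ((hmemA c).2 ⟨h7, hc'⟩)⟩
    · rintro ⟨hcT, hcP⟩
      rw [mem_co]
      refine ⟨fun h => hcP ((hmemA c).1 h).2, fun d hd hdc => ?_⟩
      rw [hmemA] at hd
      exact hcP ((hP3 d c hd.1 hcT hdc).1 hd.2)
  have hST' : S ⊆ Tf := fun c hc => (hmemT c).2 (hST (mem_coe.2 hc))
  obtain ⟨A, hmemA⟩ : ∃ A : Finset V, ∀ c, c ∈ A ↔ c ∉ T ∧ c ∈ F :=
    ⟨univ.filter fun a => a ∉ T ∧ a ∈ F, fun c => by simp⟩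
  obtain ⟨B, hmemB⟩ : ∃ B : Finset V, ∀ c, c ∈ B ↔ c ∉ T ∧ c ∉ F :=
    ⟨univ.filter fun a => a ∉ T ∧ a ∉ F, fun c => by simp⟩
  have hA : A.Nonempty := ⟨u, (hmemA u).2 ⟨hu, huF⟩⟩
  have hB : B.Nonempty := ⟨v, (hmemB v).2 ⟨hv, hvF⟩⟩
  obtain ⟨a1, a2⟩ := key (fun a => a ∈ F) A B hmemA hmemB hA hB hF
  obtain ⟨b1, b2⟩ := key (fun a => a ∉ F) B A hmemB (fun c => by rw [hmemA, not_not]) hB hA
    (fun a b ha hb hab => not_congr (hF a b ha hb hab))
  rcases le_total A.card B.card with hle | hle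
  · exact ⟨A, hA, by rw [a1]; exact hST', by rw [a1]; exact hTn', by rw [a2]; exact hle⟩
  · exact ⟨B, hB, by rw [b1]; exact hST', by rw [b1]; exact hTn', by rw [b2]; exact hle⟩

/-- A non-complete `n`-connected graph with at most `2 n + 1` vertices has diameter two. -/
theorem diam_two (h : IsNK n k G) (hG : G ≠ ⊤) (hv : Fintype.card V ≤ 2 * n + 1) :
    G.diam = 2 := by
  classical
  have hcard := card_ge h hG
  -- the degrees
  have hdeg : ∀ x y, x ≠ y → ¬ G.Adj x y → n ≤ (univ.filter fun z => G.Adj x z).card := by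
    intro x y hne hxy
    have h1 : Disconnects G ({z | G.Adj x z} : Set V) := by
      rw [disconnects_iff]
      refine ⟨{x}, ⟨x, by simp, rfl⟩, ⟨y, hxy, fun h1 => hne h1.symm⟩, ?_⟩
      intro u v hu hv huv
      rw [Set.mem_singleton_iff, Set.mem_singleton_iff]
      constructor
      · rintro rfl
        exact absurd huv hv
      · rintro rfl
        exact absurd huv.symm hu
    have h2 := disc_le h h1
    rw [← Set.ncard_coe_finset]
    convert h2 using 2
    ext z
    simp
  have hdist : ∀ x y, x ≠ y → ¬ G.Adj x y → ∃ z, G.Adj x z ∧ G.Adj y z := by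
    intro x y hne hxy
    have h1 := hdeg x y hne hxy
    have h2 := hdeg y x hne.symm (fun h => hxy h.symm)
    by_contra hcon
    push Not at hcon
    have h3 : Disjoint (univ.filter fun z => G.Adj x z) (univ.filter fun z => G.Adj y z) := by
      rw [Finset.disjoint_left]
      intro z hz hz'
      rw [mem_filter] at hz hz'
      exact hcon z hz.2 hz'.2
    have h4 : (univ.filter fun z => G.Adj x z) ∪ (univ.filter fun z => G.Adj y z) ⊆
        univ \ {x, y} := by
      intro z hz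
      rw [mem_union, mem_filter, mem_filter] at hz
      rw [mem_sdiff, mem_insert, mem_singleton]
      refine ⟨mem_univ _, ?_⟩
      rintro (rfl | rfl)
      · rcases hz with hz | hz
        · exact G.loopless.irrefl _ hz.2
        · exact hxy hz.2.symm
      · rcases hz with hz | hz
        · exact hxy hz.2
        · exact G.loopless.irrefl _ hz.2
    have h5 := card_le_card h4
    rw [card_union_of_disjoint h3] at h5
    have h6 : (univ \ ({x, y} : Finset V)).card = Fintype.card V - 2 := by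
      rw [card_sdiff_of_subset (subset_univ _), card_univ, card_pair hne]
    omega
  have hwalk : ∀ x y : V, ∃ p : G.Walk x y, p.length ≤ 2 := by
    intro x y
    by_cases hxy : x = y
    · subst hxy
      exact ⟨Walk.nil, by simp⟩
    · by_cases hadj : G.Adj x y
      · exact ⟨Walk.cons hadj Walk.nil, by simp⟩
      · obtain ⟨z, h1, h2⟩ := hdist x y hxy hadj
        exact ⟨Walk.cons h1 (Walk.cons h2.symm Walk.nil), by simp⟩
  obtain ⟨x, y, hne, hxy⟩ := exists_nonadj hG
  have : Nonempty V := ⟨x⟩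
  have hconn : G.Connected := ⟨fun u v => by obtain ⟨p, -⟩ := hwalk u v; exact ⟨p⟩⟩
  apply le_antisymm
  · obtain ⟨u, v, huv⟩ := G.exists_dist_eq_diam
    rw [← huv]
    obtain ⟨p, hp⟩ := hwalk u v
    exact (dist_le p).trans hp
  · refine le_trans ?_ (dist_le_diam (connected_iff_ediam_ne_top.1 hconn) (u := x) (v := y))
    have h1 : G.dist x y ≠ 0 := fun h => hne (hconn.dist_eq_zero_iff.1 h)
    have h2 : G.dist x y ≠ 1 := fun h => hxy (dist_eq_one_iff_adj.1 h)
    omega

/-- The upper bound. -/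
theorem upper_bound {W : Type} [Finite W] {H : SimpleGraph W} {n k : ℕ}
    (h : IsNK n k H) (hH : H ≠ ⊤) (hk : Nat.clog 2 n + 2 ≤ k) : H.diam = 2 := by
  classical
  have := Fintype.ofFinite W
  by_cases hv : Fintype.card W ≤ 2 * n + 1
  · exact diam_two h hH hv
  · exfalso
    have h1 := upper (hyp_of h hH) (by omega) (Nat.clog 2 n) (Nat.le_pow_clog (by norm_num) n)
    omega

end Pool.Agent.CritLog
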